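import Pool.Agent.Work.MP_943409_an_helper80.L

/-!
# Block LYA: comparison for the Lyapunov equation
-/

open Complex MeasureTheory Filter Topology
open scoped ComplexOrder InnerProductSpace ComplexConjugate

namespace Aluthge

/-- the function `exp (-(τ s(x)))` -/
noncomputable def tfun (ε τ x : ℝ) : ℝ := Real.exp (-(τ * sfun ε x))

theorem tfun_exists {ε : ℝ} (hε : 0 ≤ ε) (τ : ℝ) :
    ∃ M : E →L[ℂ] E, IsMul (tfun ε τ) M ∧ ‖M‖ ≤ Real.exp |τ| := by
  refine exists_isMul (tfun ε τ) ?_ (Real.exp |τ|) fun x => ?_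
  · unfold tfun
    have := sfun_meas ε
    fun_prop
  · unfold tfun
    rw [abs_of_pos (Real.exp_pos _), Real.exp_le_exp]
    have h1 := sfun_pos ε x
    have h2 := sfun_le_one hε x
    calc -(τ * sfun ε x) ≤ |τ * sfun ε x| := neg_le_abs _
      _ = |τ| * sfun ε x := by rw [abs_mul, abs_of_pos h1]
      _ ≤ |τ| * 1 := mul_le_mul_of_nonneg_left h2 (abs_nonneg _)
      _ = |τ| := mul_one _

/-- Multiplication by `exp (-(τ s(x)))`. -/
noncomputable def tOp (ε τ : ℝ) : E →L[ℂ] E := Classical.epsilon (IsMul (tfun ε τ))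

theorem tOp_isMul {ε : ℝ} (hε : 0 ≤ ε) (τ : ℝ) : IsMul (tfun ε τ) (tOp ε τ) := by
  obtain ⟨M, hM, -⟩ := tfun_exists hε τ
  exact Classical.epsilon_spec (p := fun M => IsMul (tfun ε τ) M) ⟨M, hM⟩

theorem tOp_add {ε : ℝ} (hε : 0 ≤ ε) (τ h : ℝ) : tOp ε (τ + h) = tOp ε h * tOp ε τ := by
  refine (tOp_isMul hε (τ + h)).unique ((tOp_isMul hε h).mul (tOp_isMul hε τ)) fun x => ?_
  unfold tfun
  rw [← Real.exp_add]
  congr 1
  ring

theorem tOp_zero {ε : ℝ} (hε : 0 ≤ ε) : tOp ε 0 = 1 := by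
  refine (tOp_isMul hε 0).unique IsMul.one fun x => ?_
  unfold tfun
  simp

theorem tOp_small {ε : ℝ} (hε : 0 ≤ ε) {h : ℝ} (hh : |h| ≤ 1) :
    ‖tOp ε h - 1 + (h : ℂ) • sOp ε‖ ≤ h ^ 2 := by
  have h1 := ((tOp_isMul hε h).sub IsMul.one).add ((sOp_isMul hε).smul h)
  refine h1.norm_le (sq_nonneg _) fun x => ?_
  have h2 := sfun_pos ε x
  have h3 := sfun_le_one hε x
  have h4 : |-(h * sfun ε x)| ≤ 1 := by
    rw [abs_neg, abs_mul, abs_of_pos h2]
    calc |h| * sfun ε x ≤ 1 * 1 := mul_le_mul hh h3 h2.le zero_le_one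
      _ = 1 := one_mul _
  have h5 := Real.abs_exp_sub_one_sub_id_le h4
  have h6 : tfun ε h x - 1 + h * sfun ε x = Real.exp (-(h * sfun ε x)) - 1 - -(h * sfun ε x) := by
    unfold tfun; ring
  rw [h6]
  refine h5.trans ?_
  have h7 : (-(h * sfun ε x)) ^ 2 = h ^ 2 * sfun ε x ^ 2 := by ring
  rw [h7]
  have h8 : sfun ε x ^ 2 ≤ 1 := by nlinarith
  calc h ^ 2 * sfun ε x ^ 2 ≤ h ^ 2 * 1 := mul_le_mul_of_nonneg_left h8 (sq_nonneg _)
    _ = h ^ 2 := mul_one _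

theorem tOp_hasDerivAt {ε : ℝ} (hε : 0 ≤ ε) (g : E) (τ : ℝ) :
    HasDerivAt (fun τ : ℝ => tOp ε τ g) (-(sOp ε (tOp ε τ g))) τ := by
  rw [hasDerivAt_iff_tendsto_slope_zero]
  rw [tendsto_iff_norm_sub_tendsto_zero]
  have hb : ∀ᶠ t : ℝ in 𝓝[≠] 0, ‖t⁻¹ • (tOp ε (τ + t) g - tOp ε τ g) - -(sOp ε (tOp ε τ g))‖
      ≤ |t| * ‖tOp ε τ g‖ := by
    have h1 : ∀ᶠ t : ℝ in 𝓝[≠] 0, |t| ≤ 1 := by
      refine nhdsWithin_le_nhds ?_
      have := Metric.closedBall_mem_nhds (0 : ℝ) one_pos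
      filter_upwards [this] with t ht
      simpa [Real.dist_eq] using ht
    filter_upwards [h1, self_mem_nhdsWithin] with t ht ht0
    have ht0' : t ≠ 0 := ht0
    set u : E := tOp ε τ g with hu
    have h2 : t⁻¹ • (tOp ε (τ + t) g - u) - -(sOp ε u)
        = t⁻¹ • ((tOp ε t - 1 + (t : ℂ) • sOp ε) u) := by
      rw [tOp_add hε]
      show t⁻¹ • (tOp ε t u - u) - -(sOp ε u) = t⁻¹ • (tOp ε t u - u + (t : ℂ) • sOp ε u)
      rw [smul_add, sub_neg_eq_add]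
      congr 1
      have h9 : (t : ℂ) • sOp ε u = t • sOp ε u := rfl
      rw [h9, smul_smul, inv_mul_cancel₀ ht0', one_smul]
    rw [h2, norm_smul, norm_inv, Real.norm_eq_abs]
    calc |t|⁻¹ * ‖(tOp ε t - 1 + (t : ℂ) • sOp ε) u‖ ≤ |t|⁻¹ * (t ^ 2 * ‖u‖) := by
          refine mul_le_mul_of_nonneg_left ?_ (inv_nonneg.2 (abs_nonneg _))
          exact ContinuousLinearMap.le_of_opNorm_le _ (tOp_small hε ht) u
      _ = |t| * ‖u‖ := by
          rw [← sq_abs t, sq]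
          have : |t| ≠ 0 := abs_ne_zero.2 ht0'
          field_simp
  refine squeeze_zero' (Eventually.of_forall fun _ => norm_nonneg _) hb ?_
  have h3 : Tendsto (fun t : ℝ => |t| * ‖tOp ε τ g‖) (𝓝 0) (𝓝 (|(0 : ℝ)| * ‖tOp ε τ g‖)) :=
    ((continuous_abs.tendsto 0).mul_const _)
  rw [abs_zero, zero_mul] at h3
  exact h3.mono_left nhdsWithin_le_nhds

theorem tOp_tendsto {ε : ℝ} (hε : 0 ≤ ε) (g : E) :
    Tendsto (fun n : ℕ => tOp ε n g) atTop (𝓝 0) := by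
  have hz : IsMul (fun _ => 0) (0 : E →L[ℂ] E) := by
    intro g
    filter_upwards [Lp.coeFn_zero ℂ 2 (volume : Measure ℝ)] with x hx
    show (0 : E) x = _
    rw [hx]; simp
  have h := isMul_tendsto (l := atTop) (fun n : ℕ => tfun ε n) (fun n : ℕ => tOp ε n) (fun _ => 0) 0
    (fun n => tOp_isMul hε n) hz 1 (fun n x => by
      rw [sub_zero]
      unfold tfun
      rw [abs_of_pos (Real.exp_pos _), Real.exp_le_one_iff]
      have h1 := sfun_pos ε x
      have h2 : (0 : ℝ) ≤ n := Nat.cast_nonneg n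
      nlinarith) (fun x => by
      unfold tfun
      have h1 := sfun_pos ε x
      refine Real.tendsto_exp_neg_atTop_nhds_zero.comp ?_
      exact Tendsto.atTop_mul_const h1 tendsto_natCast_atTop_atTop) g
  exact h

/-- **Block LYA.** -/
theorem stmt_LYA : Stmt_LYA := by
  intro ε X Y hε hX hY hXY
  have hε0 : 0 ≤ ε := hε.le
  set D : E →L[ℂ] E := Y - X with hD
  have hDs : IsSelfAdjoint D := hY.sub hX
  set s : E →L[ℂ] E := sOp ε with hs
  have hK : 0 ≤ s * D + D * s := by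
    have h1 : s * D + D * s = (s * Y + Y * s) - (s * X + X * s) := by
      rw [hD, mul_sub, sub_mul]; abel
    rw [h1]
    exact sub_nonneg.2 hXY
  rw [← sub_nonneg, ← hD, ContinuousLinearMap.nonneg_iff_isPositive,
    ContinuousLinearMap.isPositive_def']
  refine ⟨hDs, fun g => ?_⟩
  rw [ContinuousLinearMap.reApplyInnerSelf_apply]
  -- the function
  let G : ℝ → E := fun τ => tOp ε τ g
  let f : ℝ → ℝ := fun τ => RCLike.re ⟪D (G τ), G τ⟫_ℂ
  have hG : ∀ τ, HasDerivAt G (-(s (G τ))) τ := fun τ => tOp_hasDerivAt hε0 g τ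
  have hDG : ∀ τ, HasDerivAt (fun τ => D (G τ)) (D (-(s (G τ)))) τ := fun τ =>
    (D.restrictScalars ℝ).hasFDerivAt.comp_hasDerivAt τ (hG τ)
  have hf : ∀ τ, HasDerivAt f (RCLike.re (⟪D (G τ), -(s (G τ))⟫_ℂ + ⟪D (-(s (G τ))), G τ⟫_ℂ)) τ := by
    intro τ
    have h1 := HasDerivAt.inner ℂ (hDG τ) (hG τ)
    exact (Complex.reCLM.hasFDerivAt.comp_hasDerivAt τ h1)
  have hneg : ∀ τ, RCLike.re (⟪D (G τ), -(s (G τ))⟫_ℂ + ⟪D (-(s (G τ))), G τ⟫_ℂ) ≤ 0 := by
    intro τ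
    set u := G τ with hu
    have h1 : (0 : ℝ) ≤ RCLike.re ⟪(s * D + D * s) u, u⟫_ℂ := by
      rw [ContinuousLinearMap.nonneg_iff_isPositive, ContinuousLinearMap.isPositive_def'] at hK
      have := hK.2 u
      rwa [ContinuousLinearMap.reApplyInnerSelf_apply] at this
    have h2 : ⟪(s * D + D * s) u, u⟫_ℂ = ⟪D u, s u⟫_ℂ + ⟪D (s u), u⟫_ℂ := by
      show ⟪s (D u) + D (s u), u⟫_ℂ = _
      rw [inner_add_left]
      congr 1
      have h3 : IsSelfAdjoint s := (sOp_isMul hε0).isSelfAdjoint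
      have h4 := (ContinuousLinearMap.isSelfAdjoint_iff_isSymmetric.1 h3) (D u) u
      exact h4
    rw [h2] at h1
    rw [map_neg, inner_neg_right, inner_neg_left, ← neg_add, map_neg]
    linarith
  have hanti : Antitone f := by
    refine antitone_of_deriv_nonpos (fun τ => (hf τ).differentiableAt) fun τ => ?_
    rw [(hf τ).deriv]
    exact hneg τ
  have hlim : Tendsto (fun n : ℕ => f n) atTop (𝓝 0) := by
    have h1 : Tendsto (fun n : ℕ => G n) atTop (𝓝 0) := tOp_tendsto hε0 g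
    have h2 : Tendsto (fun n : ℕ => D (G n)) atTop (𝓝 0) := by
      have := (D.continuous.tendsto 0).comp h1
      rw [map_zero] at this
      exact this
    have h3 := (h2.inner (𝕜 := ℂ) h1)
    have h4 := ((RCLike.continuous_re (K := ℂ)).tendsto _).comp h3
    rw [inner_zero_left, map_zero] at h4
    exact h4
  have h0 : f 0 = RCLike.re ⟪D g, g⟫_ℂ := by
    show RCLike.re ⟪D (tOp ε 0 g), tOp ε 0 g⟫_ℂ = _
    rw [tOp_zero hε0]
    rfl
  rw [← h0]
  exact le_of_tendsto' hlim fun n => hanti (Nat.cast_nonneg n)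

end Aluthge
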