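import Pool.Agent.Work.MP_943409_an_helper80.Schur

/-!
# Blocks M1 and M2
-/

open Complex MeasureTheory Filter Topology
open scoped ComplexOrder InnerProductSpace

namespace Aluthge

/-- The binomial part of the entries. -/
noncomputable def lin (a : ℝ) (i l : ℕ) : ℝ := i.choose l * a ^ (l + 1) * (1 - a) ^ (i - l)

theorem entry_eq (a : ℝ) (v : ℕ → ℝ) (i l : ℕ) : entry a v i l = Real.sqrt (v i / v l) * lin a i l :=
  rfl

variable {a : ℝ}

theorem lin_nonneg (h0 : 0 < a) (h1 : a < 1) (i l : ℕ) : 0 ≤ lin a i l := by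
  unfold lin
  have := sub_pos.2 h1
  positivity

theorem lin_zero {i l : ℕ} (h : i < l) : lin a i l = 0 := by
  rw [lin, Nat.choose_eq_zero_of_lt h]; simp

theorem lin_row_range (i : ℕ) : ∑ l ∈ Finset.range (i + 1), lin a i l = a := by
  have h := add_pow a (1 - a) i
  have e1 : a + (1 - a) = 1 := by ring
  rw [e1, one_pow] at h
  calc ∑ l ∈ Finset.range (i + 1), lin a i l
      = a * ∑ m ∈ Finset.range (i + 1), a ^ m * (1 - a) ^ (i - m) * (i.choose m) := by
        rw [Finset.mul_sum]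
        refine Finset.sum_congr rfl fun l _ => ?_
        unfold lin; ring
    _ = a := by rw [← h, mul_one]

theorem lin_row_hasSum (i : ℕ) : HasSum (fun l => lin a i l) a := by
  have h : HasSum (fun l => lin a i l) (∑ l ∈ Finset.range (i + 1), lin a i l) := by
    refine hasSum_sum_of_ne_finset_zero fun l hl => ?_
    rw [Finset.mem_range, not_lt] at hl
    exact lin_zero hl
  rwa [lin_row_range] at h

theorem lin_row (h0 : 0 < a) (h1 : a < 1) (i : ℕ) (s : Finset ℕ) : ∑ l ∈ s, lin a i l ≤ a :=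
  sum_le_hasSum s (fun l _ => lin_nonneg h0 h1 i l) (lin_row_hasSum i)

theorem lin_le_one (h0 : 0 < a) (h1 : a < 1) (i l : ℕ) : lin a i l ≤ 1 := by
  have h := lin_row h0 h1 i {l}
  rw [Finset.sum_singleton] at h
  linarith

/-- The majorant of the columns. -/
noncomputable def bcol (a : ℝ) (i l : ℕ) : ℝ :=
  (i + 1).choose (l + 1) * a ^ (l + 1) * (1 - a) ^ (i - l)

theorem bcol_zero {i l : ℕ} (h : i < l) : bcol a i l = 0 := by
  rw [bcol, Nat.choose_eq_zero_of_lt (by omega)]; simp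

theorem bcol_eq (i l : ℕ) : bcol a i l = ((i : ℝ) + 1) / (l + 1) * lin a i l := by
  have h := Nat.add_one_mul_choose_eq i l
  have h' : ((i : ℝ) + 1) * (i.choose l) = ((i + 1).choose (l + 1)) * ((l : ℝ) + 1) := by
    exact_mod_cast h
  have hl : (l : ℝ) + 1 ≠ 0 := by positivity
  unfold bcol lin
  rw [div_mul_eq_mul_div, eq_div_iff hl]
  calc ((i + 1).choose (l + 1) : ℝ) * a ^ (l + 1) * (1 - a) ^ (i - l) * (l + 1)
      = (((i + 1).choose (l + 1) : ℝ) * (l + 1)) * (a ^ (l + 1) * (1 - a) ^ (i - l)) := by ring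
    _ = (((i : ℝ) + 1) * (i.choose l)) * (a ^ (l + 1) * (1 - a) ^ (i - l)) := by rw [h']
    _ = _ := by ring

theorem bcol_nonneg (h0 : 0 < a) (h1 : a < 1) (i l : ℕ) : 0 ≤ bcol a i l := by
  unfold bcol
  have := sub_pos.2 h1
  positivity

theorem bcol_hasSum (h0 : 0 < a) (h1 : a < 1) (l : ℕ) : HasSum (fun i => bcol a i l) (1 / a) := by
  have hr : ‖(1 - a : ℝ)‖ < 1 := by
    rw [Real.norm_eq_abs, abs_lt]; constructor <;> linarith
  have h := (hasSum_choose_mul_geometric_of_norm_lt_one (l + 1) hr).mul_left (a ^ (l + 1))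
  have e1 : a ^ (l + 1) * (1 / (1 - (1 - a)) ^ (l + 1 + 1)) = 1 / a := by
    rw [sub_sub_cancel, pow_succ a (l + 1)]
    field_simp
  rw [e1] at h
  have h2 : HasSum (fun n => bcol a (n + l) l) (1 / a) := by
    have h5 : (fun n => bcol a (n + l) l) =
        fun n => a ^ (l + 1) * (((n + (l + 1)).choose (l + 1) : ℝ) * (1 - a) ^ n) := by
      funext n
      unfold bcol
      rw [show n + l + 1 = n + (l + 1) from by ring, Nat.add_sub_cancel]
      ring
    rw [h5]
    exact h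
  have h3 := (hasSum_nat_add_iff (f := fun i => bcol a i l) l).1 h2
  rw [Finset.sum_eq_zero (fun i hi => bcol_zero (Finset.mem_range.1 hi)), add_zero] at h3
  exact h3

theorem lin_col_hasSum (h0 : 0 < a) (h1 : a < 1) (l : ℕ) : HasSum (fun i => lin a i l) 1 := by
  have hr : ‖(1 - a : ℝ)‖ < 1 := by
    rw [Real.norm_eq_abs, abs_lt]; constructor <;> linarith
  have h := (hasSum_choose_mul_geometric_of_norm_lt_one l hr).mul_left (a ^ (l + 1))
  have e1 : a ^ (l + 1) * (1 / (1 - (1 - a)) ^ (l + 1)) = 1 := by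
    rw [sub_sub_cancel]
    field_simp
  rw [e1] at h
  have h2 : HasSum (fun n => lin a (n + l) l) 1 := by
    have h5 : (fun n => lin a (n + l) l) =
        fun n => a ^ (l + 1) * (((n + l).choose l : ℝ) * (1 - a) ^ n) := by
      funext n
      unfold lin
      rw [Nat.add_sub_cancel]
      ring
    rw [h5]
    exact h
  have h3 := (hasSum_nat_add_iff (f := fun i => lin a i l) l).1 h2
  rw [Finset.sum_eq_zero (fun i hi => lin_zero (Finset.mem_range.1 hi)), add_zero] at h3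
  exact h3

section IsVfacts

variable {v : ℕ → ℝ}

theorem IsV.mono (hv : IsV v) : Monotone v := monotone_nat_of_le_succ hv.2.1

theorem IsV.one_le (hv : IsV v) (i : ℕ) : 1 ≤ v i := by
  rw [← hv.1]; exact hv.mono (Nat.zero_le i)

theorem IsV.pos (hv : IsV v) (i : ℕ) : 0 < v i := lt_of_lt_of_le one_pos (hv.one_le i)

theorem IsV.ratio (hv : IsV v) {l i : ℕ} (h : l ≤ i) : v i / (i + 1) ≤ v l / (l + 1) := by
  have hanti : Antitone (fun i : ℕ => v i / ((i : ℝ) + 1)) := by
    refine antitone_nat_of_succ_le fun n => ?_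
    have h1 := hv.2.2 n
    rw [div_le_div_iff₀ (by positivity) (by positivity)]
    push_cast
    nlinarith [h1]
  exact hanti h

theorem IsV.ratio' (hv : IsV v) {l i : ℕ} (h : l ≤ i) : v i / v l ≤ ((i : ℝ) + 1) / (l + 1) := by
  have h1 := hv.ratio h
  rw [div_le_div_iff₀ (by positivity) (by positivity)] at h1
  rw [div_le_div_iff₀ (hv.pos l) (by positivity)]
  linarith

end IsVfacts

theorem entry_nonneg (h0 : 0 < a) (h1 : a < 1) (v : ℕ → ℝ) (i l : ℕ) : 0 ≤ entry a v i l :=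
  mul_nonneg (Real.sqrt_nonneg _) (lin_nonneg h0 h1 i l)

theorem m1_exists (h0 : 0 < a) (h1 : a < 1) {v : ℕ → ℝ} (hv : IsV v) :
    ∃ A : L2N →L[ℂ] L2N, IsMat A (entry a v) ∧ ‖A‖ ≤ 1 := by
  suffices hkey : (∀ i (s : Finset ℕ), ∑ l ∈ s, entry a v i l * Real.sqrt (v l)
        ≤ a * Real.sqrt (v i)) ∧
      (∀ l (s : Finset ℕ), ∑ i ∈ s, entry a v i l * Real.sqrt (v i)
        ≤ 1 / a * Real.sqrt (v l)) by
    obtain ⟨A, hA, hn⟩ := schur (entry a v) (entry_nonneg h0 h1 v) (fun i => Real.sqrt (v i))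
      (fun i => Real.sqrt_pos.2 (hv.pos i)) a (1 / a) h0.le (by positivity) hkey.1 hkey.2
    refine ⟨A, isMat_of_hasSum hA, ?_⟩
    rw [mul_one_div_cancel h0.ne', Real.sqrt_one] at hn
    exact hn
  constructor
  · intro i s
    have h2 : ∀ l ∈ s, entry a v i l * Real.sqrt (v l) = lin a i l * Real.sqrt (v i) := by
      intro l _
      rw [entry_eq, Real.sqrt_div' _ (hv.pos l).le]
      have := (Real.sqrt_pos.2 (hv.pos l)).ne'
      field_simp
    rw [Finset.sum_congr rfl h2, ← Finset.sum_mul]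
    exact mul_le_mul_of_nonneg_right (lin_row h0 h1 i s) (Real.sqrt_nonneg _)
  · intro l s
    have h2 : ∀ i ∈ s, entry a v i l * Real.sqrt (v i) ≤ bcol a i l * Real.sqrt (v l) := by
      intro i _
      rcases lt_or_ge i l with hil | hil
      · rw [entry_eq, lin_zero hil, bcol_zero hil]; simp
      · rw [bcol_eq, entry_eq]
        have hl := Real.sqrt_pos.2 (hv.pos l)
        have e1 : Real.sqrt (v i / v l) * lin a i l * Real.sqrt (v i)
            = (v i / v l) * lin a i l * Real.sqrt (v l) := by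
          rw [Real.sqrt_div' _ (hv.pos l).le]
          have e2 := Real.mul_self_sqrt (hv.pos i).le
          have e3 := Real.mul_self_sqrt (hv.pos l).le
          calc Real.sqrt (v i) / Real.sqrt (v l) * lin a i l * Real.sqrt (v i)
              = (Real.sqrt (v i) * Real.sqrt (v i)) * lin a i l / Real.sqrt (v l) := by ring
            _ = v i * lin a i l / Real.sqrt (v l) := by rw [e2]
            _ = v i * lin a i l * Real.sqrt (v l) / (Real.sqrt (v l) * Real.sqrt (v l)) := by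
                field_simp
            _ = v i * lin a i l * Real.sqrt (v l) / v l := by rw [e3]
            _ = _ := by ring
        rw [e1]
        refine mul_le_mul_of_nonneg_right ?_ hl.le
        exact mul_le_mul_of_nonneg_right (hv.ratio' hil) (lin_nonneg h0 h1 i l)
    refine (Finset.sum_le_sum h2).trans ?_
    rw [← Finset.sum_mul]
    refine mul_le_mul_of_nonneg_right ?_ (Real.sqrt_nonneg _)
    exact sum_le_hasSum s (fun i _ => bcol_nonneg h0 h1 i l) (bcol_hasSum h0 h1 l)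

theorem opA_isMat (h0 : 0 < a) (h1 : a < 1) {v : ℕ → ℝ} (hv : IsV v) :
    IsMat (opA a v) (entry a v) := by
  obtain ⟨A, hA, _⟩ := m1_exists h0 h1 hv
  exact Classical.epsilon_spec (p := fun A => IsMat A (entry a v)) ⟨A, hA⟩

theorem opA_norm (h0 : 0 < a) (h1 : a < 1) {v : ℕ → ℝ} (hv : IsV v) : ‖opA a v‖ ≤ 1 := by
  obtain ⟨A, hA, hn⟩ := m1_exists h0 h1 hv
  rw [isMat_unique (opA_isMat h0 h1 hv) hA]
  exact hn

/-- **Block M1.** -/
theorem stmt_M1 : Stmt_M1 := fun _ _ h0 h1 hv => ⟨opA_isMat h0 h1 hv, opA_norm h0 h1 hv⟩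

/-- Adjoint matrix. -/
theorem isMat_star {A : L2N →L[ℂ] L2N} {m : ℕ → ℕ → ℝ} (h : IsMat A m) :
    IsMat (star A) (fun l i => m i l) := by
  intro l i
  have h1 : ∀ (x : L2N) (k : ℕ), x k = ⟪e k, x⟫_ℂ := by
    intro x k
    rw [e, lp.inner_single_left]
    simp
  rw [h1 (star A (e i)) l, ContinuousLinearMap.star_eq_adjoint,
    ContinuousLinearMap.adjoint_inner_right, ← inner_conj_symm, ← h1, h i l, Complex.conj_ofReal]

theorem l2_norm_hasSum (x : L2N) : HasSum (fun i => ‖x i‖ ^ 2) (‖x‖ ^ 2) := by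
  have h := lp.hasSum_norm (p := 2) (by norm_num) x
  simpa using h

theorem tendsto_of_matrix (A : ℕ → L2N →L[ℂ] L2N) (A₀ : L2N →L[ℂ] L2N) (m : ℕ → ℕ → ℕ → ℝ)
    (m₀ : ℕ → ℕ → ℝ) (hA : ∀ k, IsMat (A k) (m k)) (hA₀ : IsMat A₀ m₀) (C : ℝ)
    (hC : ∀ k, ‖A k‖ ≤ C) (b : ℕ → ℕ → ℝ) (hb : ∀ l, Summable (fun i => b i l))
    (hm : ∀ k i l, (m k i l - m₀ i l) ^ 2 ≤ b i l)
    (hlim : ∀ i l, Tendsto (fun k => m k i l) atTop (𝓝 (m₀ i l))) (x : L2N) :
    Tendsto (fun k => A k x) atTop (𝓝 (A₀ x)) := by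
  -- on the basis
  have h1 : ∀ l, Tendsto (fun k => A k (e l)) atTop (𝓝 (A₀ (e l))) := by
    intro l
    rw [tendsto_iff_norm_sub_tendsto_zero]
    have h2 : Tendsto (fun k => ‖A k (e l) - A₀ (e l)‖ ^ 2) atTop (𝓝 0) := by
      have h3 : ∀ k, ‖A k (e l) - A₀ (e l)‖ ^ 2 = ∑' i, (m k i l - m₀ i l) ^ 2 := by
        intro k
        rw [← (l2_norm_hasSum _).tsum_eq]
        refine tsum_congr fun i => ?_
        rw [lp.coeFn_sub, Pi.sub_apply, hA k i l, hA₀ i l, ← Complex.ofReal_sub,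
          Complex.norm_real, Real.norm_eq_abs, sq_abs]
      simp only [h3]
      have h4 : (0 : ℝ) = ∑' _ : ℕ, (0 : ℝ) := by simp
      rw [h4]
      refine tendsto_tsum_of_dominated_convergence (hb l) ?_ ?_
      · intro i
        have := ((hlim i l).sub_const (m₀ i l)).pow 2
        simpa using this
      · refine Eventually.of_forall fun k i => ?_
        rw [Real.norm_of_nonneg (sq_nonneg _)]
        exact hm k i l
    have h5 := h2.sqrt
    simpa [Real.sqrt_sq (norm_nonneg _)] using h5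
  -- finite combinations
  have hx := lp.hasSum_single (p := 2) (by norm_num) x
  have hC0 : 0 ≤ C := (norm_nonneg _).trans (hC 0)
  rw [Metric.tendsto_atTop]
  intro ε hε
  have hM : 0 < C + ‖A₀‖ + 1 := by positivity
  obtain ⟨s, hs⟩ : ∃ s : Finset ℕ, ‖(∑ l ∈ s, lp.single 2 l (x l)) - x‖ < ε / 2 / (C + ‖A₀‖ + 1) := by
    have h6 := (Metric.tendsto_nhds.1 hx) (ε / 2 / (C + ‖A₀‖ + 1)) (by positivity)
    obtain ⟨s, hs⟩ := h6.exists
    exact ⟨s, by rwa [dist_eq_norm] at hs⟩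
  have h7 : Tendsto (fun k => A k (∑ l ∈ s, lp.single 2 l (x l))) atTop
      (𝓝 (A₀ (∑ l ∈ s, lp.single 2 l (x l)))) := by
    simp only [map_sum]
    refine tendsto_finsetSum _ fun l _ => ?_
    have h3 : lp.single 2 l (x l) = x l • e l := by
      rw [e, ← lp.single_smul, smul_eq_mul, mul_one]
    rw [h3]
    simp only [map_smul]
    exact (h1 l).const_smul (x l)
  rw [Metric.tendsto_atTop] at h7
  obtain ⟨N, hN⟩ := h7 (ε / 2) (by positivity)
  refine ⟨N, fun k hk => ?_⟩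
  have h8 := hN k hk
  rw [dist_eq_norm] at h8 ⊢
  set y := ∑ l ∈ s, lp.single 2 l (x l) with hy
  have h9 : A k x - A₀ x = (A k y - A₀ y) - (A k (y - x) - A₀ (y - x)) := by
    rw [map_sub, map_sub]; abel
  rw [h9]
  have h10 : ‖A k (y - x) - A₀ (y - x)‖ ≤ (C + ‖A₀‖) * ‖y - x‖ := by
    refine (norm_sub_le _ _).trans ?_
    rw [add_mul]
    exact add_le_add ((A k).le_of_opNorm_le (hC k) _) (A₀.le_opNorm _)
  have h11 : (C + ‖A₀‖) * ‖y - x‖ ≤ ε / 2 := by
    calc (C + ‖A₀‖) * ‖y - x‖ ≤ (C + ‖A₀‖ + 1) * ‖y - x‖ :=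
          mul_le_mul_of_nonneg_right (by linarith) (norm_nonneg _)
      _ ≤ (C + ‖A₀‖ + 1) * (ε / 2 / (C + ‖A₀‖ + 1)) :=
          mul_le_mul_of_nonneg_left hs.le hM.le
      _ = ε / 2 := by field_simp
  calc ‖A k y - A₀ y - (A k (y - x) - A₀ (y - x))‖
      ≤ ‖A k y - A₀ y‖ + ‖A k (y - x) - A₀ (y - x)‖ := norm_sub_le _ _
    _ < ε / 2 + ε / 2 := add_lt_add_of_lt_of_le h8 (h10.trans h11)
    _ = ε := by ring

theorem entry_sq_le (h0 : 0 < a) (h1 : a < 1) {v : ℕ → ℝ} (hv : IsV v) (i l : ℕ) :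
    entry a v i l ^ 2 ≤ ((i : ℝ) + 1) / (l + 1) * lin a i l := by
  rcases lt_or_ge i l with hil | hil
  · rw [entry_eq, lin_zero hil]; simp
  · rw [entry_eq, mul_pow, Real.sq_sqrt (div_nonneg (hv.pos i).le (hv.pos l).le)]
    refine mul_le_mul (hv.ratio' hil) ?_ (sq_nonneg _) (by positivity)
    have h2 := lin_nonneg h0 h1 i l
    have h3 := lin_le_one h0 h1 i l
    nlinarith

theorem sq_sub_le (x y b : ℝ) (hx : x ^ 2 ≤ b) (hy : y ^ 2 ≤ b) : (x - y) ^ 2 ≤ 4 * b := by
  nlinarith [sq_nonneg (x + y)]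

/-- **Block M2.** -/
theorem stmt_M2 : Stmt_M2 := by
  intro a v v₀ h0 h1 hv hv₀ hlim
  have hent : ∀ i l, Tendsto (fun k => entry a (v k) i l) atTop (𝓝 (entry a v₀ i l)) := by
    intro i l
    simp only [entry_eq]
    exact (((hlim i).div (hlim l) (hv₀.pos l).ne').sqrt).mul_const _
  constructor
  · intro x
    refine tendsto_of_matrix (fun k => opA a (v k)) (opA a v₀) (fun k => entry a (v k))
      (entry a v₀) (fun k => opA_isMat h0 h1 (hv k)) (opA_isMat h0 h1 hv₀) 1
      (fun k => opA_norm h0 h1 (hv k)) (fun i l => 4 * (((i : ℝ) + 1) / (l + 1) * lin a i l)) ?_ ?_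
      hent x
    · intro l
      refine Summable.mul_left _ ?_
      refine (bcol_hasSum h0 h1 l).summable.congr fun i => ?_
      rw [bcol_eq]
    · intro k i l
      exact sq_sub_le _ _ _ (entry_sq_le h0 h1 (hv k) i l) (entry_sq_le h0 h1 hv₀ i l)
  · intro x
    refine tendsto_of_matrix (fun k => star (opA a (v k))) (star (opA a v₀))
      (fun k l i => entry a (v k) i l)
      (fun l i => entry a v₀ i l) (fun k => isMat_star (opA_isMat h0 h1 (hv k)))
      (isMat_star (opA_isMat h0 h1 hv₀)) 1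
      (fun k => by
        rw [ContinuousLinearMap.star_eq_adjoint, LinearIsometryEquiv.norm_map]
        exact opA_norm h0 h1 (hv k))
      (fun l i => 4 * (((i : ℝ) + 1) * lin a i l)) ?_ ?_
      (fun l i => hent i l) x
    · intro i
      exact ((lin_row_hasSum i).summable.mul_left _).mul_left _
    · intro k l i
      have h3 : ((i : ℝ) + 1) / (l + 1) * lin a i l ≤ ((i : ℝ) + 1) * lin a i l := by
        refine mul_le_mul_of_nonneg_right ?_ (lin_nonneg h0 h1 i l)
        refine div_le_self (by positivity) ?_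
        have : (0 : ℝ) ≤ l := Nat.cast_nonneg l
        linarith
      exact sq_sub_le _ _ _ ((entry_sq_le h0 h1 (hv k) i l).trans h3)
        ((entry_sq_le h0 h1 hv₀ i l).trans h3)

end Aluthge
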