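import Pool.Agent.Work.MP_943409_an_helper80.M12

/-!
# Blocks M3 and M4
-/

open Complex MeasureTheory Filter Topology
open scoped ComplexOrder InnerProductSpace

namespace Aluthge

/-- Diagonal operators. -/
theorem exists_diag (d : ℕ → ℝ) (hd : ∀ i, 0 ≤ d i) (c : ℝ) (hc : ∀ i, d i ≤ c) :
    ∃ D : L2N →L[ℂ] L2N, (∀ (x : L2N) i, D x i = (d i : ℂ) * x i) ∧ ‖D‖ ≤ c := by
  have hc0 : 0 ≤ c := (hd 0).trans (hc 0)
  have h1 : ∀ i (s : Finset ℕ), ∑ l ∈ s, (if i = l then d i else 0) * (1 : ℝ) ≤ c * 1 := by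
    intro i s
    simp only [mul_one]
    rw [Finset.sum_ite_eq]
    split_ifs
    · exact hc i
    · exact hc0
  have h2 : ∀ l (s : Finset ℕ), ∑ i ∈ s, (if i = l then d i else 0) * (1 : ℝ) ≤ c * 1 := by
    intro l s
    simp only [mul_one]
    rw [Finset.sum_ite_eq']
    split_ifs
    · exact hc l
    · exact hc0
  obtain ⟨D, hD, hn⟩ := schur (fun i l => if i = l then d i else 0)
    (fun i l => by split_ifs; exacts [hd i, le_rfl]) (fun _ => 1)
    (fun _ => one_pos) c c hc0 hc0 h1 h2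
  refine ⟨D, fun x i => ?_, ?_⟩
  · refine (hD x i).unique ?_
    have h3 : (fun l => ((if i = l then d i else 0 : ℝ) : ℂ) * x l)
        = fun l => if l = i then (d i : ℂ) * x i else 0 := by
      funext l
      by_cases h : i = l
      · subst h; simp
      · rw [if_neg h, if_neg (Ne.symm h)]; simp
    rw [h3]
    exact hasSum_ite_eq i _
  · rwa [Real.sqrt_mul_self hc0] at hn

theorem diag_e {D : L2N →L[ℂ] L2N} {d : ℕ → ℝ} (hD : ∀ (x : L2N) i, D x i = (d i : ℂ) * x i)
    (l : ℕ) : D (e l) = (d l : ℂ) • e l := by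
  apply lp.ext
  funext i
  rw [hD, lp.coeFn_smul, Pi.smul_apply, smul_eq_mul, e_apply]
  split_ifs with h
  · rw [h]
  · simp

theorem diag_conj_isMat {D D' B : L2N →L[ℂ] L2N} {d d' : ℕ → ℝ} {m : ℕ → ℕ → ℝ}
    (hD : ∀ (x : L2N) i, D x i = (d i : ℂ) * x i)
    (hD' : ∀ (x : L2N) i, D' x i = (d' i : ℂ) * x i) (hB : IsMat B m) :
    IsMat (D * B * D') (fun i l => d i * d' l * m i l) := by
  intro i l
  show (D (B (D' (e l)))) i = _
  rw [diag_e hD', map_smul, hD, lp.coeFn_smul, Pi.smul_apply, hB i l, smul_eq_mul]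
  push_cast
  ring

theorem diag_mul {D D' : L2N →L[ℂ] L2N} {d d' : ℕ → ℝ}
    (hD : ∀ (x : L2N) i, D x i = (d i : ℂ) * x i)
    (hD' : ∀ (x : L2N) i, D' x i = (d' i : ℂ) * x i) (h : ∀ i, d i * d' i = 1) :
    D * D' = 1 := by
  apply ContinuousLinearMap.ext
  intro x
  apply lp.ext
  funext i
  show (D (D' x)) i = x i
  rw [hD, hD', ← mul_assoc, ← Complex.ofReal_mul, h i, Complex.ofReal_one, one_mul]

theorem isV_one : IsV (fun _ => 1) := by
  refine ⟨rfl, fun _ => le_rfl, fun i => ?_⟩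
  linarith

theorem isV_lin : IsV (fun i => (i : ℝ) + 1) := by
  refine ⟨by norm_num, fun i => ?_, fun i => ?_⟩
  · push_cast; linarith
  · push_cast; nlinarith

theorem opA_one_norm {a : ℝ} (h0 : 0 < a) (h1 : a < 1) : ‖opA a (fun _ => 1)‖ ≤ Real.sqrt a := by
  obtain ⟨A, hA, hn⟩ := schur (lin a) (lin_nonneg h0 h1) (fun _ => 1) (fun _ => one_pos) a 1 h0.le
    zero_le_one (fun i s => by simpa using lin_row h0 h1 i s)
    (fun l s => by
      simpa using sum_le_hasSum s (fun i _ => lin_nonneg h0 h1 i l) (lin_col_hasSum h0 h1 l))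
  have h2 : opA a (fun _ => 1) = A := by
    refine isMat_unique (opA_isMat h0 h1 isV_one) ?_
    have h3 := isMat_of_hasSum hA
    intro i l
    rw [h3 i l, entry_eq]
    simp
  rw [h2]
  rwa [mul_one] at hn

theorem conj_pow {R : Type*} [Monoid R] {D B D' : R} (h : D' * D = 1) (h' : D * D' = 1) (m : ℕ) :
    (D * B * D') ^ m = D * B ^ m * D' := by
  induction m with
  | zero => simp [h']
  | succ n ih =>
    rw [pow_succ, ih, pow_succ]
    calc D * B ^ n * D' * (D * B * D') = D * B ^ n * (D' * D) * (B * D') := by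
          simp only [mul_assoc]
      _ = _ := by rw [h]; simp only [mul_assoc, mul_one]

/-- **Block M3.** -/
theorem stmt_M3 : Stmt_M3 := by
  intro a v J h0 h1 hv hJ
  have hle : ∀ i, v i ≤ v J := by
    intro i
    rcases le_or_gt J i with h | h
    · exact (hJ i h).le
    · exact hv.mono h.le
  obtain ⟨D, hD, hDn⟩ := exists_diag (fun i => Real.sqrt (v i / v J)) (fun _ => Real.sqrt_nonneg _)
    1 (fun i => by
      rw [← Real.sqrt_one]
      exact Real.sqrt_le_sqrt ((div_le_one (hv.pos J)).2 (hle i)))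
  obtain ⟨D', hD', hDn'⟩ := exists_diag (fun i => Real.sqrt (v J / v i))
    (fun _ => Real.sqrt_nonneg _) (Real.sqrt (v J)) (fun i => by
      exact Real.sqrt_le_sqrt (div_le_self (hv.pos J).le (hv.one_le i)))
  have hcross : ∀ i, Real.sqrt (v i / v J) * Real.sqrt (v J / v i) = 1 := by
    intro i
    rw [← Real.sqrt_mul (div_nonneg (hv.pos i).le (hv.pos J).le)]
    have : v i / v J * (v J / v i) = 1 := by
      have h2 := (hv.pos i).ne'
      have h3 := (hv.pos J).ne'
      field_simp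
    rw [this, Real.sqrt_one]
  have hDD' : D * D' = 1 := diag_mul hD hD' hcross
  have hD'D : D' * D = 1 := diag_mul hD' hD (fun i => by rw [mul_comm]; exact hcross i)
  have hA : opA a v = D * opA a (fun _ => 1) * D' := by
    refine isMat_unique (opA_isMat h0 h1 hv) ?_
    have h2 := diag_conj_isMat hD hD' (opA_isMat h0 h1 isV_one)
    intro i l
    rw [h2 i l]
    congr 1
    simp only [entry_eq]
    rw [div_one, Real.sqrt_one, one_mul, ← Real.sqrt_mul (div_nonneg (hv.pos i).le (hv.pos J).le)]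
    congr 2
    have h3 := (hv.pos J).ne'
    have h4 := (hv.pos l).ne'
    field_simp
  refine ⟨Real.sqrt (v J), fun m => ?_⟩
  rw [hA, conj_pow hD'D hDD']
  have hB : ‖opA a (fun _ => 1) ^ m‖ ≤ (Real.sqrt a) ^ m := by
    rcases Nat.eq_zero_or_pos m with h | h
    · subst h
      rw [pow_zero, pow_zero]
      exact ContinuousLinearMap.norm_id_le
    · exact (norm_pow_le' _ h).trans (pow_le_pow_left₀ (norm_nonneg _) (opA_one_norm h0 h1) m)
  have hpa : 0 ≤ Real.sqrt a ^ m := pow_nonneg (Real.sqrt_nonneg _) m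
  calc ‖D * opA a (fun _ => 1) ^ m * D'‖ ≤ ‖D * opA a (fun _ => 1) ^ m‖ * ‖D'‖ := norm_mul_le _ _
    _ ≤ (‖D‖ * ‖opA a (fun _ => 1) ^ m‖) * ‖D'‖ :=
        mul_le_mul_of_nonneg_right (norm_mul_le _ _) (norm_nonneg _)
    _ ≤ (1 * Real.sqrt a ^ m) * Real.sqrt (v J) := by
        refine mul_le_mul ?_ hDn' (norm_nonneg _) (by rw [one_mul]; exact hpa)
        exact mul_le_mul hDn hB (norm_nonneg _) zero_le_one
    _ = Real.sqrt (v J) * Real.sqrt a ^ m := by ring

theorem l2_apply_eq_inner (x : L2N) (k : ℕ) : x k = ⟪e k, x⟫_ℂ := by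
  rw [e, lp.inner_single_left]
  simp

theorem star_diag {D : L2N →L[ℂ] L2N} {d : ℕ → ℝ} (hD : ∀ (x : L2N) i, D x i = (d i : ℂ) * x i)
    (x : L2N) (i : ℕ) : (star D x) i = (d i : ℂ) * x i := by
  rw [l2_apply_eq_inner, ContinuousLinearMap.star_eq_adjoint,
    ContinuousLinearMap.adjoint_inner_right, diag_e hD, inner_smul_left, ← l2_apply_eq_inner,
    Complex.conj_ofReal]

/-- **Block M4.** -/
theorem stmt_M4 : Stmt_M4 := by
  intro a v J h0 h1 hv hJ
  have hJ1 : (0 : ℝ) < (J : ℝ) + 1 := by positivity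
  -- d i ^ 2
  let q : ℕ → ℝ := fun i => v i * (J + 1) / (v J * (i + 1))
  have hq : ∀ i, q i = (v i / (i + 1)) / (v J / (J + 1)) := by
    intro i
    show v i * (J + 1) / (v J * (i + 1)) = _
    rw [div_div_div_eq, mul_comm (v J)]
  have hrJ : 0 < v J / (J + 1) := div_pos (hv.pos J) hJ1
  have hq1 : ∀ i, 1 ≤ q i := by
    intro i
    rw [hq, one_le_div hrJ]
    rcases le_or_gt J i with h | h
    · rw [hJ i h]
      have : (i : ℝ) + 1 ≠ 0 := by positivity
      rw [mul_div_assoc, div_self this, mul_one]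
    · exact hv.ratio h.le
  have hqJ : ∀ i, J ≤ i → q i = 1 := by
    intro i h
    rw [hq, hJ i h]
    have : (i : ℝ) + 1 ≠ 0 := by positivity
    rw [mul_div_assoc, div_self this, mul_one, div_self hrJ.ne']
  have hqpos : ∀ i, 0 < q i := fun i => lt_of_lt_of_le one_pos (hq1 i)
  have hqle : ∀ i, q i ≤ (J + 1) / v J := by
    intro i
    rw [hq, div_le_div_iff₀ hrJ (hv.pos J)]
    have h2 := hv.ratio (Nat.zero_le i)
    rw [hv.1] at h2
    simp only [Nat.cast_zero, zero_add, div_one] at h2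
    have h3 : (J + 1) * (v J / (J + 1)) = v J := by field_simp
    rw [h3]
    calc v i / (i + 1) * v J ≤ 1 * v J := mul_le_mul_of_nonneg_right h2 (hv.pos J).le
      _ = v J := one_mul _
  obtain ⟨D, hD, -⟩ := exists_diag (fun i => Real.sqrt (q i)) (fun _ => Real.sqrt_nonneg _)
    (Real.sqrt ((J + 1) / v J)) (fun i => Real.sqrt_le_sqrt (hqle i))
  obtain ⟨D', hD', -⟩ := exists_diag (fun i => (Real.sqrt (q i))⁻¹)
    (fun _ => inv_nonneg.2 (Real.sqrt_nonneg _)) 1 (fun i => by
      refine inv_le_one_of_one_le₀ ?_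
      rw [← Real.sqrt_one]
      exact Real.sqrt_le_sqrt (hq1 i))
  have hcross : ∀ i, Real.sqrt (q i) * (Real.sqrt (q i))⁻¹ = 1 := fun i =>
    mul_inv_cancel₀ (Real.sqrt_pos.2 (hqpos i)).ne'
  have hDD' : D * D' = 1 := diag_mul hD hD' hcross
  have hD'D : D' * D = 1 := diag_mul hD' hD (fun i => by rw [mul_comm]; exact hcross i)
  let De : L2N ≃L[ℂ] L2N := ContinuousLinearEquiv.equivOfInverse D D'
    (fun x => by
      have := congrArg (fun T : L2N →L[ℂ] L2N => T x) hD'D
      exact this)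
    (fun x => by
      have := congrArg (fun T : L2N →L[ℂ] L2N => T x) hDD'
      exact this)
  have hDe : (De : L2N →L[ℂ] L2N) = D := by ext x; rfl
  have hDe' : (De.symm : L2N →L[ℂ] L2N) = D' := by ext x; rfl
  refine ⟨fun i => q i - 1, De, fun i => sub_nonneg.2 (hq1 i), ?_, ?_⟩
  · rw [hDe]
    apply ContinuousLinearMap.ext
    intro x
    apply lp.ext
    funext j
    show (star D (D x)) j = _
    rw [star_diag hD, hD, ← mul_assoc, ← Complex.ofReal_mul, Real.mul_self_sqrt (hqpos j).le]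
    have h2 : ((1 + ∑ i : Fin J, ((q i - 1 : ℝ) : ℂ) • rk (e i) : L2N →L[ℂ] L2N) x : L2N)
        = x + ∑ i : Fin J, ((q i - 1 : ℝ) : ℂ) • (x i • e i) := by
      rw [add_apply, sum_apply]
      congr 1
      refine Finset.sum_congr rfl fun i _ => ?_
      rw [smul_apply]
      congr 1
      rw [rk, ContinuousLinearMap.smulRight_apply, innerSL_apply_apply, ← l2_apply_eq_inner]
    rw [h2, lp.coeFn_add, Pi.add_apply, lp.coeFn_sum, Finset.sum_apply]
    simp only [lp.coeFn_smul, Pi.smul_apply, smul_eq_mul, e_apply, mul_ite, mul_one, mul_zero]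
    by_cases hj : j < J
    · rw [Finset.sum_eq_single (⟨j, hj⟩ : Fin J)]
      · simp only [if_true]
        push_cast
        ring
      · intro i _ hi
        rw [if_neg]
        intro h
        exact hi (Fin.ext h.symm)
      · intro h
        exact absurd (Finset.mem_univ _) h
    · rw [Finset.sum_eq_zero, hqJ j (not_lt.1 hj)]
      · simp
      · intro i _
        rw [if_neg]
        intro h
        exact hj (h ▸ i.2)
  · rw [hDe, hDe']
    refine isMat_unique (opA_isMat h0 h1 hv) ?_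
    have h2 := diag_conj_isMat hD hD' (opA_isMat h0 h1 isV_lin)
    intro i l
    rw [h2 i l]
    congr 1
    simp only [entry_eq]
    rw [← mul_assoc]
    congr 1
    rw [← div_eq_mul_inv, ← Real.sqrt_div (hqpos i).le,
      ← Real.sqrt_mul (div_nonneg (hqpos i).le (hqpos l).le)]
    congr 1
    rw [hq, hq]
    have h3 := (hv.pos J).ne'
    have h4 := (hv.pos l).ne'
    field_simp

end Aluthge
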