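import Pool.Agent.Work.MP_943409_an_helper80.M12

/-!
# Block M5: composition operators on the weighted Hardy space
-/

open Complex MeasureTheory Filter Topology
open scoped ComplexOrder InnerProductSpace

namespace Aluthge

/-- The shift on `ℓ²`. -/
theorem exists_shift : ∃ S : L2N →ₗᵢ[ℂ] L2N, (∀ x : L2N, S x 0 = 0) ∧
    ∀ (x : L2N) (j : ℕ), S x (j + 1) = x j := by
  have h1 : ∀ i (s : Finset ℕ), ∑ l ∈ s, (if i = l + 1 then (1 : ℝ) else 0) * 1 ≤ 1 * 1 := by
    intro i s
    simp only [mul_one]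
    rcases i with _ | i
    · simp
    · simp only [Nat.add_right_cancel_iff]
      rw [Finset.sum_ite_eq]
      split_ifs <;> norm_num
  have h2 : ∀ l (s : Finset ℕ), ∑ i ∈ s, (if i = l + 1 then (1 : ℝ) else 0) * 1 ≤ 1 * 1 := by
    intro l s
    simp only [mul_one]
    rw [Finset.sum_ite_eq']
    split_ifs <;> norm_num
  obtain ⟨A, hA, -⟩ := schur (fun i l => if i = l + 1 then (1 : ℝ) else 0)
    (fun i l => by split_ifs <;> norm_num) (fun _ => 1)
    (fun _ => one_pos) 1 1 zero_le_one zero_le_one h1 h2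
  have hA0 : ∀ x : L2N, A x 0 = 0 := by
    intro x
    refine (hA x 0).unique ?_
    have : (fun l => (((if 0 = l + 1 then (1 : ℝ) else 0) : ℝ) : ℂ) * x l) = fun _ => 0 := by
      funext l
      rw [if_neg (by omega)]; simp
    rw [this]
    exact hasSum_zero
  have hA1 : ∀ (x : L2N) (j : ℕ), A x (j + 1) = x j := by
    intro x j
    refine (hA x (j + 1)).unique ?_
    have : (fun l => (((if j + 1 = l + 1 then (1 : ℝ) else 0) : ℝ) : ℂ) * x l)
        = fun l => if l = j then x j else 0 := by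
      funext l
      by_cases h : l = j
      · subst h; simp
      · rw [if_neg (by omega), if_neg h]; simp
    rw [this]
    exact hasSum_ite_eq j _
  have hn : ∀ x : L2N, ‖A x‖ = ‖x‖ := by
    intro x
    have h3 := l2_norm_hasSum (A x)
    have h4 := l2_norm_hasSum x
    have h5 : HasSum (fun i => ‖A x (i + 1)‖ ^ 2) (‖x‖ ^ 2) := by
      simp only [hA1]; exact h4
    have h6 := (hasSum_nat_add_iff (f := fun i => ‖A x i‖ ^ 2) 1).1 h5
    simp only [Finset.sum_range_one, hA0, norm_zero, ne_eq, OfNat.ofNat_ne_zero,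
      not_false_eq_true, zero_pow, add_zero] at h6
    have h7 := h3.unique h6
    exact (sq_eq_sq₀ (norm_nonneg _) (norm_nonneg _)).1 h7
  exact ⟨{ toLinearMap := A.toLinearMap, norm_map' := hn }, hA0, hA1⟩

/-- Composition operators from matrices. -/
theorem isCompOp_of (β : ℕ → ℝ) (hβ : ∀ j, 1 ≤ β j) (m : ℕ → ℕ → ℝ) (hm : ∀ i l, 0 ≤ m i l)
    (ψ : ℂ → ℂ) (C : L2N →L[ℂ] L2N)
    (hC : ∀ (x : L2N) i, HasSum (fun l => ((β i / β l * m i l : ℝ) : ℂ) * x l) (C x i))
    (hψ : ∀ z : ℂ, ‖z‖ < 1 → ∀ l, HasSum (fun i => (m i l : ℂ) * z ^ i) (ψ z ^ l))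
    (hρ : ∀ r : ℝ, 0 ≤ r → r < 1 → ∃ ρ : ℝ, 0 ≤ ρ ∧ ρ < 1 ∧
      ∀ l, HasSum (fun i => m i l * r ^ i) (ρ ^ l)) : IsCompOp β ψ C := by
  intro x z hz
  obtain ⟨ρ, hρ0, hρ1, hρs⟩ := hρ ‖z‖ (norm_nonneg z) hz
  have hβ0 : ∀ j, (β j : ℂ) ≠ 0 := fun j => by
    have := lt_of_lt_of_le one_pos (hβ j)
    exact_mod_cast this.ne'
  let F : ℕ → ℕ → ℂ := fun i l => (x l / (β l : ℂ)) * ((m i l : ℂ) * z ^ i)
  have hF : Summable (Function.uncurry F) := by
    have hG : Summable (Function.uncurry fun l i => F i l) := by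
      refine Summable.of_norm ?_
      have hcol : ∀ l, HasSum (fun i => ‖F i l‖) (‖x l‖ / β l * ρ ^ l) := by
        intro l
        have h := (hρs l).mul_left (‖x l‖ / β l)
        have h2 : (fun i => ‖F i l‖) = fun i => ‖x l‖ / β l * (m i l * ‖z‖ ^ i) := by
          funext i
          show ‖(x l / (β l : ℂ)) * ((m i l : ℂ) * z ^ i)‖ = _
          rw [norm_mul, norm_div, norm_mul, norm_pow, Complex.norm_real, Complex.norm_real,
            Real.norm_of_nonneg (hm i l),
            Real.norm_of_nonneg ((zero_le_one (α := ℝ)).trans (hβ l))]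
        rw [h2]
        exact h
      refine (summable_prod_of_nonneg (fun _ => norm_nonneg _)).2 ⟨fun l => (hcol l).summable, ?_⟩
      have h3 : (fun l => ∑' i, ‖Function.uncurry (fun l i => F i l) (l, i)‖)
          = fun l => ‖x l‖ / β l * ρ ^ l := by
        funext l
        exact (hcol l).tsum_eq
      rw [h3]
      refine Summable.of_nonneg_of_le (fun l => ?_) (fun l => ?_)
        ((summable_geometric_of_lt_one hρ0 hρ1).mul_left ‖x‖)
      · have := (zero_le_one (α := ℝ)).trans (hβ l)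
        positivity
      · refine mul_le_mul_of_nonneg_right ?_ (pow_nonneg hρ0 l)
        exact (div_le_self (norm_nonneg _) (hβ l)).trans (l2_apply_le x l)
    have h4 := (Equiv.prodComm ℕ ℕ).summable_iff.2 hG
    exact h4
  have h1 : ev β (C x) z = ∑' i, ∑' l, F i l := by
    unfold ev
    refine tsum_congr fun i => ?_
    rw [← (hC x i).tsum_eq, div_eq_mul_inv, ← tsum_mul_right, ← tsum_mul_right]
    refine tsum_congr fun l => ?_
    show _ = (x l / (β l : ℂ)) * ((m i l : ℂ) * z ^ i)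
    push_cast
    have h2 := hβ0 i
    have h3 := hβ0 l
    field_simp
  have h2 : ev β x (ψ z) = ∑' l, ∑' i, F i l := by
    unfold ev
    refine tsum_congr fun l => ?_
    rw [← (hψ z hz l).tsum_eq, ← tsum_mul_left]
  rw [h1, h2]
  exact hF.tsum_comm.symm

/-- matrix of `C_σ` on monomials -/
noncomputable def msig (a : ℝ) : ℕ → ℕ → ℝ
  | 0, 0 => 1
  | 0, _ + 1 => 0
  | _ + 1, 0 => 0
  | i + 1, l + 1 => lin a i l

/-- matrix of `C_φ` on monomials -/
noncomputable def mphi (a : ℝ) (k j : ℕ) : ℝ := j.choose k * a ^ k * (1 - a) ^ (j - k)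

theorem msig_nonneg {a : ℝ} (h0 : 0 < a) (h1 : a < 1) (i l : ℕ) : 0 ≤ msig a i l := by
  rcases i with _ | i <;> rcases l with _ | l
  · exact zero_le_one
  · exact le_rfl
  · exact le_rfl
  · exact lin_nonneg h0 h1 i l

theorem mphi_nonneg {a : ℝ} (h0 : 0 < a) (h1 : a < 1) (k j : ℕ) : 0 ≤ mphi a k j := by
  unfold mphi
  have := sub_pos.2 h1
  positivity

theorem lin_genfun {𝕜 : Type} [RCLike 𝕜] {a : ℝ} (h0 : 0 < a) (h1 : a < 1) (z : 𝕜) (hz : ‖z‖ < 1)
    (l : ℕ) :
    HasSum (fun i => ((lin a i l : ℝ) : 𝕜) * z ^ (i + 1))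
      (((a : 𝕜) * z / (-(1 - (a : 𝕜)) * z + 1)) ^ (l + 1)) := by
  have hr : ‖((1 - a : ℝ) : 𝕜) * z‖ < 1 := by
    rw [norm_mul, RCLike.norm_ofReal, abs_of_pos (sub_pos.2 h1)]
    have := norm_nonneg z
    nlinarith
  have h := (hasSum_choose_mul_geometric_of_norm_lt_one l hr).mul_left
    (((a : 𝕜) * z) ^ (l + 1))
  have e1 : ((a : 𝕜) * z) ^ (l + 1) * (1 / (1 - ((1 - a : ℝ) : 𝕜) * z) ^ (l + 1))
      = ((a : 𝕜) * z / (-(1 - (a : 𝕜)) * z + 1)) ^ (l + 1) := by
    rw [div_pow, mul_one_div]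
    congr 2
    push_cast
    ring
  rw [e1] at h
  have h2 : HasSum (fun n => ((lin a (n + l) l : ℝ) : 𝕜) * z ^ (n + l + 1))
      (((a : 𝕜) * z / (-(1 - (a : 𝕜)) * z + 1)) ^ (l + 1)) := by
    have h5 : (fun n => ((lin a (n + l) l : ℝ) : 𝕜) * z ^ (n + l + 1)) =
        fun n => ((a : 𝕜) * z) ^ (l + 1) *
          (((n + l).choose l : 𝕜) * (((1 - a : ℝ) : 𝕜) * z) ^ n) := by
      funext n
      unfold lin
      rw [Nat.add_sub_cancel]
      push_cast
      rw [mul_pow, mul_pow]
      ring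
    rw [h5]
    exact h
  have h3 := (hasSum_nat_add_iff (f := fun i => ((lin a i l : ℝ) : 𝕜) * z ^ (i + 1)) l).1 h2
  rw [Finset.sum_eq_zero (fun i hi => by
    rw [lin_zero (Finset.mem_range.1 hi)]; simp), add_zero] at h3
  exact h3

theorem msig_genfun {𝕜 : Type} [RCLike 𝕜] {a : ℝ} (h0 : 0 < a) (h1 : a < 1) (z : 𝕜)
    (hz : ‖z‖ < 1) (l : ℕ) :
    HasSum (fun i => ((msig a i l : ℝ) : 𝕜) * z ^ i)
      (((a : 𝕜) * z / (-(1 - (a : 𝕜)) * z + 1)) ^ l) := by
  rcases l with _ | l
  · rw [pow_zero]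
    have h : HasSum (fun i => ((msig a i 0 : ℝ) : 𝕜) * z ^ i)
        (∑ i ∈ Finset.range 1, ((msig a i 0 : ℝ) : 𝕜) * z ^ i) := by
      refine hasSum_sum_of_ne_finset_zero fun i hi => ?_
      rcases i with _ | i
      · simp at hi
      · simp [msig]
    simpa [msig] using h
  · have h2 : HasSum (fun i => ((msig a (i + 1) (l + 1) : ℝ) : 𝕜) * z ^ (i + 1))
        (((a : 𝕜) * z / (-(1 - (a : 𝕜)) * z + 1)) ^ (l + 1)) := lin_genfun h0 h1 z hz l
    have h3 := (hasSum_nat_add_iff (f := fun i => ((msig a i (l + 1) : ℝ) : 𝕜) * z ^ i) 1).1 h2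
    simpa [msig] using h3

theorem mphi_genfun {𝕜 : Type} [RCLike 𝕜] {a : ℝ} (z : 𝕜) (l : ℕ) :
    HasSum (fun i => ((mphi a i l : ℝ) : 𝕜) * z ^ i) (((a : 𝕜) * z + (1 - (a : 𝕜))) ^ l) := by
  have h : HasSum (fun i => ((mphi a i l : ℝ) : 𝕜) * z ^ i)
      (∑ i ∈ Finset.range (l + 1), ((mphi a i l : ℝ) : 𝕜) * z ^ i) := by
    refine hasSum_sum_of_ne_finset_zero fun i hi => ?_
    rw [Finset.mem_range, not_lt] at hi
    rw [mphi, Nat.choose_eq_zero_of_lt (by omega)]
    simp
  rw [add_pow]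
  convert h using 1
  refine Finset.sum_congr rfl fun i _ => ?_
  unfold mphi
  push_cast
  rw [mul_pow]
  ring

theorem mphi_row {a : ℝ} (h0 : 0 < a) (h1 : a < 1) (k : ℕ) :
    HasSum (fun j => mphi a k j) (1 / a) := by
  have h := (lin_col_hasSum h0 h1 k).mul_left (1 / a)
  rw [mul_one] at h
  have h5 : (fun j => mphi a k j) = fun j => 1 / a * lin a j k := by
    funext j
    unfold mphi lin
    rw [pow_succ]
    field_simp
  rw [h5]
  exact h

theorem mphi_col {a : ℝ} (j : ℕ) : HasSum (fun k => mphi a k j) 1 := by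
  have h := mphi_genfun (a := a) (1 : ℝ) j
  simpa using h

/-- The operator `C_σ`. -/
theorem exists_Csig {a : ℝ} (h0 : 0 < a) (h1 : a < 1) {v : ℕ → ℝ} (hv : IsV v) (β : ℕ → ℝ)
    (hβ : ∀ j, 1 ≤ β j) (hβ0 : β 0 = 1) (hβv : ∀ i, β (i + 1) = Real.sqrt (v i)) :
    ∃ (Csig : L2N →L[ℂ] L2N) (S : L2N →ₗᵢ[ℂ] L2N), IsCompOp β (sigma a) Csig ∧
      (∀ x, Csig (S x) = S (opA a v x)) ∧ (∀ x, star Csig (S x) = S (star (opA a v) x)) := by
  obtain ⟨S, hS0, hS1⟩ := exists_shift
  let So : L2N →L[ℂ] L2N := S.toContinuousLinearMap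
  have hSo : ∀ x, So x = S x := fun _ => rfl
  have hSe : ∀ l, S (e l) = e (l + 1) := by
    intro l
    apply lp.ext
    funext i
    rcases i with _ | i
    · rw [hS0, e_apply, if_neg (by omega)]
    · rw [hS1, e_apply, e_apply]
      simp
  have hSs : ∀ (x : L2N) l, (star So x) l = x (l + 1) := by
    intro x l
    have h1 : ∀ (x : L2N) (k : ℕ), x k = ⟪e k, x⟫_ℂ := by
      intro x k
      rw [e, lp.inner_single_left]
      simp
    rw [h1 (star So x) l, ContinuousLinearMap.star_eq_adjoint,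
      ContinuousLinearMap.adjoint_inner_right, hSo, hSe, ← h1]
  have hSS : ∀ x, star So (So x) = x := by
    intro x
    apply lp.ext
    funext l
    rw [hSs, hSo, hS1]
  let P : L2N →L[ℂ] L2N := rk (e 0)
  have hP : ∀ x : L2N, P x = x 0 • e 0 := by
    intro x
    show (rk (e 0)) x = _
    rw [rk, ContinuousLinearMap.smulRight_apply, innerSL_apply_apply]
    congr 1
    rw [e, lp.inner_single_left]
    simp
  have hPs : star P = P := by
    apply isMat_unique (m := fun i l => if i = 0 ∧ l = 0 then 1 else 0)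
    · have h2 : IsMat P (fun i l => if i = 0 ∧ l = 0 then 1 else 0) := by
        intro i l
        rw [hP, lp.coeFn_smul, Pi.smul_apply, smul_eq_mul, e_apply, e_apply]
        by_cases hi : i = 0 <;> by_cases hl : l = 0 <;> simp [hi, hl, eq_comm]
      have h3 := isMat_star h2
      intro i l
      rw [h3 i l]
      simp only [and_comm]
    · intro i l
      rw [hP, lp.coeFn_smul, Pi.smul_apply, smul_eq_mul, e_apply, e_apply]
      by_cases hi : i = 0 <;> by_cases hl : l = 0 <;> simp [hi, hl, eq_comm]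
  have hPS : ∀ x, P (So x) = 0 := by
    intro x
    rw [hP, hSo, hS0, zero_smul]
  refine ⟨P + So * opA a v * star So, S, ?_, ?_, ?_⟩
  · refine isCompOp_of β hβ (msig a) (msig_nonneg h0 h1) (sigma a) _ ?_ ?_ ?_
    · intro x i
      rcases i with _ | i
      · have h2 : (P + So * opA a v * star So) x 0 = x 0 := by
          show (P x + So (opA a v (star So x))) 0 = _
          rw [lp.coeFn_add, Pi.add_apply, hSo, hS0, hP, lp.coeFn_smul, Pi.smul_apply, e_apply]
          simp
        rw [h2]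
        have h3 : (fun l => ((β 0 / β l * msig a 0 l : ℝ) : ℂ) * x l)
            = fun l => if l = 0 then x 0 else 0 := by
          funext l
          rcases l with _ | l
          · simp [msig, hβ0]
          · simp [msig]
        rw [h3]
        exact hasSum_ite_eq 0 _
      · have h2 : (P + So * opA a v * star So) x (i + 1) = (opA a v (star So x)) i := by
          show (P x + So (opA a v (star So x))) (i + 1) = _
          rw [lp.coeFn_add, Pi.add_apply, hSo, hS1, hP, lp.coeFn_smul, Pi.smul_apply, e_apply]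
          simp
        rw [h2]
        have h4 := hasSum_of_isMat (opA_isMat h0 h1 hv) (star So x) i
        have h5 : HasSum (fun l => ((β (i + 1) / β (l + 1) * msig a (i + 1) (l + 1) : ℝ) : ℂ)
            * x (l + 1)) ((opA a v (star So x)) i) := by
          have h6 : (fun l => ((β (i + 1) / β (l + 1) * msig a (i + 1) (l + 1) : ℝ) : ℂ)
              * x (l + 1)) = fun l => (entry a v i l : ℂ) * (star So x) l := by
            funext l
            rw [hSs, hβv, hβv, entry_eq, Real.sqrt_div' _ (hv.pos l).le]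
            rfl
          rw [h6]
          exact h4
        have h7 := (hasSum_nat_add_iff
          (f := fun l => ((β (i + 1) / β l * msig a (i + 1) l : ℝ) : ℂ) * x l) 1).1 h5
        simpa [msig] using h7
    · intro z hz l
      exact msig_genfun h0 h1 z hz l
    · intro r hr0 hr1
      refine ⟨a * r / (-(1 - a) * r + 1), ?_, ?_, ?_⟩
      · have : 0 < -(1 - a) * r + 1 := by nlinarith
        positivity
      · have : 0 < -(1 - a) * r + 1 := by nlinarith
        rw [div_lt_one this]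
        nlinarith
      · intro l
        have h := msig_genfun h0 h1 r (by rwa [Real.norm_of_nonneg hr0]) l
        exact h
  · intro x
    show P (So x) + So (opA a v (star So (So x))) = _
    rw [hPS, zero_add, hSS]
    rfl
  · intro x
    rw [star_add, star_mul, star_mul, star_star, hPs]
    show P (So x) + So (star (opA a v) (star So (So x))) = _
    rw [hPS, zero_add, hSS]
    rfl

/-- The operator `C_φ`. -/
theorem exists_Cphi {a : ℝ} (h0 : 0 < a) (h1 : a < 1) (β : ℕ → ℝ)
    (hβ : ∀ j, 1 ≤ β j) (hmono : Monotone β) :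
    ∃ Cphi : L2N →L[ℂ] L2N, IsCompOp β (phi a) Cphi := by
  have hβp : ∀ j, 0 < β j := fun j => lt_of_lt_of_le one_pos (hβ j)
  have hle : ∀ k j, β k / β j * mphi a k j ≤ mphi a k j := by
    intro k j
    rcases le_or_gt k j with h | h
    · refine (mul_le_mul_of_nonneg_right ?_ (mphi_nonneg h0 h1 k j)).trans (one_mul _).le
      rw [div_le_one (hβp j)]
      exact hmono h
    · rw [mphi, Nat.choose_eq_zero_of_lt h]; simp
  obtain ⟨C, hC, -⟩ := schur (fun k j => β k / β j * mphi a k j)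
    (fun k j => mul_nonneg (div_nonneg (hβp k).le (hβp j).le) (mphi_nonneg h0 h1 k j))
    (fun _ => 1) (fun _ => one_pos) (1 / a) 1 (by positivity) zero_le_one
    (fun k s => by
      simp only [mul_one]
      exact (Finset.sum_le_sum fun j _ => hle k j).trans
        (sum_le_hasSum s (fun j _ => mphi_nonneg h0 h1 k j) (mphi_row h0 h1 k)))
    (fun j s => by
      simp only [mul_one]
      exact (Finset.sum_le_sum fun k _ => hle k j).trans
        (sum_le_hasSum s (fun k _ => mphi_nonneg h0 h1 k j) (mphi_col j)))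
  refine ⟨C, isCompOp_of β hβ (mphi a) (mphi_nonneg h0 h1) (phi a) C hC ?_ ?_⟩
  · intro z _ l
    exact mphi_genfun z l
  · intro r hr0 hr1
    refine ⟨a * r + (1 - a), by nlinarith, by nlinarith, fun l => ?_⟩
    exact mphi_genfun r l

/-- **Block M5.** -/
theorem stmt_M5 : Stmt_M5 := by
  intro a v β h0 h1 hv hβ0 hβv
  have hβ : ∀ j, 1 ≤ β j := by
    intro j
    rcases j with _ | j
    · exact hβ0.ge
    · rw [hβv, ← Real.sqrt_one]
      exact Real.sqrt_le_sqrt (hv.one_le j)
  have hmono : Monotone β := by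
    refine monotone_nat_of_le_succ fun n => ?_
    rcases n with _ | n
    · rw [hβ0]; exact hβ _
    · rw [hβv, hβv]
      exact Real.sqrt_le_sqrt (hv.2.1 n)
  refine ⟨⟨hβ0, fun j => lt_of_lt_of_le one_pos (hβ j), ?_⟩, ?_⟩
  · intro x z hz
    refine Summable.of_norm_bounded (g := fun j => ‖x‖ * ‖z‖ ^ j)
      ((summable_geometric_of_lt_one (norm_nonneg z) hz).mul_left _) fun j => ?_
    rw [norm_mul, norm_div, norm_pow, Complex.norm_real,
      Real.norm_of_nonneg ((zero_le_one (α := ℝ)).trans (hβ j))]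
    refine mul_le_mul_of_nonneg_right ?_ (pow_nonneg (norm_nonneg _) _)
    exact (div_le_self (norm_nonneg _) (hβ j)).trans (l2_apply_le x j)
  · obtain ⟨Cphi, hphi⟩ := exists_Cphi h0 h1 β hβ hmono
    obtain ⟨Csig, S, h2, h3, h4⟩ := exists_Csig h0 h1 hv β hβ hβ0 hβv
    exact ⟨Cphi, Csig, S, hphi, h2, h3, h4⟩

end Aluthge
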