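import Pool.Agent.Work.MP_943409_an.Interface

/-!
# Block L: multiplication operators and the translation on `L²(ℝ)`
-/

open Complex MeasureTheory Filter Topology
open scoped ComplexOrder InnerProductSpace ComplexConjugate

namespace Aluthge

/-- Multiplication by a bounded measurable real function. -/
theorem exists_isMul (m : ℝ → ℝ) (hm : Measurable m) (C : ℝ) (hC : ∀ x, |m x| ≤ C) :
    ∃ M : E →L[ℂ] E, IsMul m M ∧ ‖M‖ ≤ C := by
  have hC0 : 0 ≤ C := (abs_nonneg _).trans (hC 0)
  have hmem : ∀ g : E, MemLp (fun x => (m x : ℂ) * g x) 2 (volume : Measure ℝ) := by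
    intro g
    refine (Lp.memLp g).of_le_mul (c := C) ?_ ?_
    · exact (Complex.measurable_ofReal.comp hm).aestronglyMeasurable.mul (Lp.memLp g).1
    · refine Eventually.of_forall fun x => ?_
      rw [norm_mul, Complex.norm_real, Real.norm_eq_abs]
      exact mul_le_mul_of_nonneg_right (hC x) (norm_nonneg _)
  let L : E →ₗ[ℂ] E :=
    { toFun := fun g => (hmem g).toLp _
      map_add' := by
        intro f g
        apply Lp.ext
        filter_upwards [(hmem (f + g)).coeFn_toLp, (hmem f).coeFn_toLp, (hmem g).coeFn_toLp,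
          Lp.coeFn_add ((hmem f).toLp _) ((hmem g).toLp _), Lp.coeFn_add f g] with x h1 h2 h3 h4 h5
        rw [h1, h4, Pi.add_apply, h2, h3, h5, Pi.add_apply]
        ring
      map_smul' := by
        intro c f
        apply Lp.ext
        filter_upwards [(hmem (c • f)).coeFn_toLp, (hmem f).coeFn_toLp,
          Lp.coeFn_smul c ((hmem f).toLp _), Lp.coeFn_smul c f] with x h1 h2 h4 h5
        rw [h1, RingHom.id_apply, h4, Pi.smul_apply, h2, h5, Pi.smul_apply, smul_eq_mul,
          smul_eq_mul]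
        ring }
  have hL : ∀ g : E, ∀ᵐ x : ℝ, (L g) x = (m x : ℂ) * g x := fun g => (hmem g).coeFn_toLp
  refine ⟨L.mkContinuous C ?_, hL, LinearMap.mkContinuous_norm_le _ hC0 _⟩
  intro g
  refine Lp.norm_le_mul_norm_of_ae_le_mul ?_
  filter_upwards [hL g] with x hx
  rw [hx, norm_mul, Complex.norm_real, Real.norm_eq_abs]
  exact mul_le_mul_of_nonneg_right (hC x) (norm_nonneg _)

namespace IsMul

variable {m m' : ℝ → ℝ} {M M' : E →L[ℂ] E}

theorem unique (h : IsMul m M) (h' : IsMul m' M') (hmm : ∀ x, m x = m' x) : M = M' := by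
  apply ContinuousLinearMap.ext
  intro g
  apply Lp.ext
  filter_upwards [h g, h' g] with x h1 h2
  rw [h1, h2, hmm]

theorem norm_le (h : IsMul m M) {C : ℝ} (hC0 : 0 ≤ C) (hC : ∀ x, |m x| ≤ C) : ‖M‖ ≤ C := by
  refine ContinuousLinearMap.opNorm_le_bound _ hC0 fun g => ?_
  refine Lp.norm_le_mul_norm_of_ae_le_mul ?_
  filter_upwards [h g] with x hx
  rw [hx, norm_mul, Complex.norm_real, Real.norm_eq_abs]
  exact mul_le_mul_of_nonneg_right (hC x) (norm_nonneg _)

theorem mul (h : IsMul m M) (h' : IsMul m' M') : IsMul (fun x => m x * m' x) (M * M') := by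
  intro g
  filter_upwards [h (M' g), h' g] with x h1 h2
  show (M (M' g)) x = _
  rw [h1, h2]
  push_cast
  ring

theorem add (h : IsMul m M) (h' : IsMul m' M') : IsMul (fun x => m x + m' x) (M + M') := by
  intro g
  filter_upwards [h g, h' g, Lp.coeFn_add (M g) (M' g)] with x h1 h2 h3
  show (M g + M' g : E) x = _
  rw [h3, Pi.add_apply, h1, h2]
  push_cast
  ring

theorem sub (h : IsMul m M) (h' : IsMul m' M') : IsMul (fun x => m x - m' x) (M - M') := by
  intro g
  filter_upwards [h g, h' g, Lp.coeFn_sub (M g) (M' g)] with x h1 h2 h3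
  show (M g - M' g : E) x = _
  rw [h3, Pi.sub_apply, h1, h2]
  push_cast
  ring

theorem smul (h : IsMul m M) (c : ℝ) : IsMul (fun x => c * m x) ((c : ℂ) • M) := by
  intro g
  filter_upwards [h g, Lp.coeFn_smul (c : ℂ) (M g)] with x h1 h3
  show ((c : ℂ) • M g : E) x = _
  rw [h3, Pi.smul_apply, h1, smul_eq_mul]
  push_cast
  ring

theorem one : IsMul (fun _ => 1) (1 : E →L[ℂ] E) := by
  intro g
  refine Eventually.of_forall fun x => ?_
  show g x = _
  simp

theorem isSelfAdjoint (h : IsMul m M) : IsSelfAdjoint M := by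
  rw [ContinuousLinearMap.isSelfAdjoint_iff_isSymmetric]
  intro f g
  show ⟪M f, g⟫_ℂ = ⟪f, M g⟫_ℂ
  rw [L2.inner_def, L2.inner_def]
  refine integral_congr_ae ?_
  filter_upwards [h f, h g] with x h1 h2
  rw [h1, h2]
  simp only [RCLike.inner_apply, map_mul, Complex.conj_ofReal]
  ring

theorem nonneg (h : IsMul m M) (hm : ∀ x, 0 ≤ m x) : 0 ≤ M := by
  rw [ContinuousLinearMap.nonneg_iff_isPositive]
  rw [ContinuousLinearMap.isPositive_def']
  refine ⟨h.isSelfAdjoint, fun g => ?_⟩
  rw [ContinuousLinearMap.reApplyInnerSelf_apply, L2.inner_def]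
  have h1 : (∫ x, ⟪(M g) x, g x⟫_ℂ) = ((∫ x, m x * ‖g x‖ ^ 2 : ℝ) : ℂ) := by
    rw [← integral_complex_ofReal]
    refine integral_congr_ae ?_
    filter_upwards [h g] with x hx
    rw [hx]
    simp only [RCLike.inner_apply, map_mul, Complex.conj_ofReal]
    push_cast
    rw [mul_left_comm, Complex.mul_conj, Complex.normSq_eq_norm_sq]
    push_cast
    rfl
  rw [h1]
  have h2 : (0 : ℝ) ≤ ∫ x, m x * ‖g x‖ ^ 2 :=
    integral_nonneg fun x => mul_nonneg (hm x) (sq_nonneg _)
  simpa using h2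

theorem injective (h : IsMul m M) (hm : ∀ x, m x ≠ 0) : Function.Injective M := by
  rw [injective_iff_map_eq_zero]
  intro g hg
  apply Lp.ext
  have h0 : (M g : ℝ → ℂ) =ᵐ[volume] 0 := by rw [hg]; exact Lp.coeFn_zero _ _ _
  filter_upwards [h g, h0, Lp.coeFn_zero ℂ 2 (volume : Measure ℝ)] with x h1 h2 h3
  rw [h1] at h2
  rw [h3]
  rcases mul_eq_zero.1 h2 with h4 | h4
  · exact absurd (by exact_mod_cast h4) (hm x)
  · exact h4

end IsMul

theorem E_norm_sq (f : E) : ‖f‖ ^ 2 = ∫ x, ‖f x‖ ^ 2 := by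
  have h : (‖f‖ : ℂ) ^ 2 = ((∫ x, ‖f x‖ ^ 2 : ℝ) : ℂ) := by
    have h1 := inner_self_eq_norm_sq_to_K (𝕜 := ℂ) f
    rw [L2.inner_def] at h1
    refine h1.symm.trans ?_
    rw [← integral_complex_ofReal]
    refine integral_congr_ae (Eventually.of_forall fun x => ?_)
    show ⟪f x, f x⟫_ℂ = _
    rw [inner_self_eq_norm_sq_to_K]
    push_cast
    rfl
  exact_mod_cast h

theorem E_integrable (f : E) : Integrable (fun x => ‖f x‖ ^ 2) := by
  have hf : MemLp (f : ℝ → ℂ) 2 volume := Lp.memLp f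
  exact (memLp_two_iff_integrable_sq_norm hf.1).1 hf

/-- Dominated convergence for multiplication operators. -/
theorem isMul_tendsto {ι : Type*} {l : Filter ι} [l.IsCountablyGenerated] (m : ι → ℝ → ℝ)
    (M : ι → E →L[ℂ] E) (m₀ : ℝ → ℝ) (M₀ : E →L[ℂ] E) (h : ∀ n, IsMul (m n) (M n))
    (h₀ : IsMul m₀ M₀) (C : ℝ) (hC : ∀ n x, |m n x - m₀ x| ≤ C)
    (hlim : ∀ x, Tendsto (fun n => m n x) l (𝓝 (m₀ x))) (g : E) :
    Tendsto (fun n => M n g) l (𝓝 (M₀ g)) := by
  rw [tendsto_iff_norm_sub_tendsto_zero]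
  have h1 : ∀ n, ‖M n g - M₀ g‖ ^ 2 = ∫ x, (m n x - m₀ x) ^ 2 * ‖g x‖ ^ 2 := by
    intro n
    have h2 := (h n).sub h₀
    show ‖(M n - M₀) g‖ ^ 2 = _
    rw [E_norm_sq]
    refine integral_congr_ae ?_
    filter_upwards [h2 g] with x hx
    rw [hx, norm_mul, mul_pow, Complex.norm_real, Real.norm_eq_abs, sq_abs]
  have h3 : Tendsto (fun n => ‖M n g - M₀ g‖ ^ 2) l (𝓝 0) := by
    simp only [h1]
    have h4 : (0 : ℝ) = ∫ x : ℝ, (0 : ℝ) := by simp
    rw [h4]
    refine tendsto_integral_filter_of_dominated_convergence (fun x => C ^ 2 * ‖g x‖ ^ 2) ?_ ?_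
      ((E_integrable g).const_mul _) ?_
    · refine Eventually.of_forall fun n => ?_
      have h5 := (E_integrable ((M n - M₀) g)).aestronglyMeasurable
      refine h5.congr ?_
      filter_upwards [((h n).sub h₀) g] with x hx
      rw [hx, norm_mul, mul_pow, Complex.norm_real, Real.norm_eq_abs, sq_abs]
    · refine Eventually.of_forall fun n => Eventually.of_forall fun x => ?_
      rw [Real.norm_of_nonneg (by positivity)]
      refine mul_le_mul_of_nonneg_right ?_ (sq_nonneg _)
      rw [← sq_abs]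
      exact pow_le_pow_left₀ (abs_nonneg _) (hC n x) 2
    · refine Eventually.of_forall fun x => ?_
      have h6 := (((hlim x).sub_const (m₀ x)).pow 2).mul_const (‖g x‖ ^ 2)
      simpa using h6
  have h7 := h3.sqrt
  simpa [Real.sqrt_sq (norm_nonneg _)] using h7

/-- the function `exp (-(ε e^x))` -/
noncomputable def sfun (ε x : ℝ) : ℝ := Real.exp (-(ε * Real.exp x))

theorem sfun_meas (ε : ℝ) : Measurable (sfun ε) := by unfold sfun; fun_prop

theorem sfun_pos (ε x : ℝ) : 0 < sfun ε x := Real.exp_pos _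

theorem sfun_le_one {ε : ℝ} (hε : 0 ≤ ε) (x : ℝ) : sfun ε x ≤ 1 := by
  unfold sfun
  rw [Real.exp_le_one_iff]
  have := Real.exp_pos x
  nlinarith

theorem sOp_isMul {ε : ℝ} (hε : 0 ≤ ε) : IsMul (sfun ε) (sOp ε) := by
  obtain ⟨M, hM, -⟩ := exists_isMul (sfun ε) (sfun_meas ε) 1 (fun x => by
    rw [abs_of_pos (sfun_pos ε x)]; exact sfun_le_one hε x)
  exact Classical.epsilon_spec (p := fun M => IsMul (fun x => Real.exp (-(ε * Real.exp x))) M)
    ⟨M, hM⟩

theorem sOp_nonneg {ε : ℝ} (hε : 0 ≤ ε) : 0 ≤ sOp ε :=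
  (sOp_isMul hε).nonneg fun x => (sfun_pos ε x).le

theorem sOp_le_one {ε : ℝ} (hε : 0 ≤ ε) : sOp ε ≤ 1 := by
  have h := (IsMul.one.sub (sOp_isMul hε)).nonneg fun x => sub_nonneg.2 (sfun_le_one hε x)
  exact sub_nonneg.1 h

theorem sOp_injective {ε : ℝ} (hε : 0 ≤ ε) : Function.Injective (sOp ε) :=
  (sOp_isMul hε).injective fun x => (sfun_pos ε x).ne'

/-- **Block L.** -/
theorem stmt_L : Stmt_L := by
  refine ⟨fun ε hε => ⟨sOp_isMul hε, sOp_nonneg hε, sOp_le_one hε, sOp_injective hε⟩, ?_, ?_, ?_, ?_⟩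
  · intro ε δ hε hδ
    refine ((sOp_isMul hε).mul (sOp_isMul hδ)).unique (sOp_isMul (add_nonneg hε hδ)) fun x => ?_
    unfold sfun
    rw [← Real.exp_add]
    congr 1
    ring
  · intro ε hε hlim g
    have h := isMul_tendsto (l := atTop) (fun n => sfun (ε n)) (fun n => sOp (ε n)) (fun _ => 1) 1
      (fun n => sOp_isMul (hε n)) IsMul.one 1 (fun n x => by
        rw [abs_le]
        have h1 := sfun_pos (ε n) x
        have h2 := sfun_le_one (hε n) x
        constructor <;> linarith) (fun x => by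
        unfold sfun
        have h3 : Tendsto (fun n => Real.exp (-(ε n * Real.exp x))) atTop
            (𝓝 (Real.exp (-(0 * Real.exp x)))) :=
          (Real.continuous_exp.tendsto _).comp ((hlim.mul_const _).neg)
        simpa using h3) g
    exact h
  · intro a _ _
    have hmp : MeasurePreserving (fun x : ℝ => x - Real.log a) volume volume :=
      measurePreserving_sub_right volume (Real.log a)
    have hmp' : MeasurePreserving (fun x : ℝ => x + Real.log a) volume volume :=
      measurePreserving_add_right volume (Real.log a)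
    let W0 : E →ₗᵢ[ℂ] E := Lp.compMeasurePreservingₗᵢ ℂ (fun x : ℝ => x - Real.log a) hmp
    have hW0 : ∀ g : E, ∀ᵐ x : ℝ, (W0 g) x = g (x - Real.log a) := fun g =>
      Lp.coeFn_compMeasurePreserving g hmp
    have hsurj : Function.Surjective W0 := by
      intro g
      refine ⟨Lp.compMeasurePreserving (fun x : ℝ => x + Real.log a) hmp' g, ?_⟩
      apply Lp.ext
      have h1 := Lp.coeFn_compMeasurePreserving g hmp'
      have h2 := hmp.quasiMeasurePreserving.ae h1
      filter_upwards [hW0 (Lp.compMeasurePreserving (fun x : ℝ => x + Real.log a) hmp' g), h2]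
        with x h3 h4
      rw [h3, h4]
      simp
    exact ⟨LinearIsometryEquiv.ofSurjective W0 hsurj, hW0⟩
  · intro a W Wo ha0 ha1 hW hWo
    have hWo1 : ∀ g, Wo g = W g := fun g => by rw [hWo]; rfl
    have h1 : star Wo * Wo = 1 := by
      apply ContinuousLinearMap.ext
      intro f
      refine ext_inner_left ℂ fun g => ?_
      show ⟪g, star Wo (Wo f)⟫_ℂ = ⟪g, f⟫_ℂ
      rw [ContinuousLinearMap.star_eq_adjoint, ContinuousLinearMap.adjoint_inner_right, hWo1, hWo1,
        LinearIsometryEquiv.inner_map_map]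
    have h2 : Wo * star Wo = 1 := by
      apply ContinuousLinearMap.ext
      intro f
      obtain ⟨g, rfl⟩ := W.surjective f
      show Wo (star Wo (W g)) = W g
      rw [← hWo1]
      have h3 := congrArg (fun T : E →L[ℂ] E => T g) h1
      have h4 : star Wo (Wo g) = g := h3
      rw [h4]
    refine ⟨h1, h2, fun ε hε => ?_⟩
    have h3 : Wo * sOp (a * ε) = sOp ε * Wo := by
      apply ContinuousLinearMap.ext
      intro g
      apply Lp.ext
      show (Wo (sOp (a * ε) g) : ℝ → ℂ) =ᵐ[volume] sOp ε (Wo g)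
      rw [hWo1, hWo1]
      have hmp : MeasurePreserving (fun x : ℝ => x - Real.log a) volume volume :=
        measurePreserving_sub_right volume (Real.log a)
      have h5 := hmp.quasiMeasurePreserving.ae (sOp_isMul (mul_nonneg ha0.le hε) g)
      filter_upwards [hW (sOp (a * ε) g), sOp_isMul hε (W g), hW g, h5] with x h6 h7 h8 h9
      rw [h6, h7, h8, h9]
      congr 2
      unfold sfun
      rw [Real.exp_sub, Real.exp_log ha0]
      congr 2
      field_simp
    rw [mul_assoc, ← h3, ← mul_assoc, h1, one_mul]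

end Aluthge
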