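import Pool.Agent.Work.MP_943409_an.Interface

/-!
# Schur test on `ℓ²(ℕ)` and matrices of operators
-/

open Complex MeasureTheory Filter Topology
open scoped ComplexOrder InnerProductSpace

namespace Aluthge

/-- ℓ² sum of squares. -/
theorem l2_sum_le (x : L2N) (s : Finset ℕ) : ∑ i ∈ s, ‖x i‖ ^ 2 ≤ ‖x‖ ^ 2 := by
  have h := lp.sum_rpow_le_norm_rpow (p := 2) (by norm_num) x s
  simpa using h

theorem e_apply (l k : ℕ) : (e l : ℕ → ℂ) k = if k = l then 1 else 0 := by
  rw [e, lp.single_apply]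
  simp [Pi.single_apply]

theorem l2_apply_le (x : L2N) (i : ℕ) : ‖x i‖ ≤ ‖x‖ := by
  have h := l2_sum_le x {i}
  simp only [Finset.sum_singleton] at h
  exact (sq_le_sq₀ (norm_nonneg _) (norm_nonneg _)).1 h

/-- Key inequality of the Schur test. -/
theorem schur_key (m : ℕ → ℕ → ℝ) (hm : ∀ i l, 0 ≤ m i l) (p : ℕ → ℝ) (hp : ∀ i, 0 < p i)
    (α β : ℝ) (hα : 0 ≤ α) 
    (hrow : ∀ i (s : Finset ℕ), ∑ l ∈ s, m i l * p l ≤ α * p i)
    (hcol : ∀ l (s : Finset ℕ), ∑ i ∈ s, m i l * p i ≤ β * p l)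
    (x : ℕ → ℝ) (t s : Finset ℕ) :
    ∑ i ∈ t, (∑ l ∈ s, m i l * |x l|) ^ 2 ≤ α * β * ∑ l ∈ s, |x l| ^ 2 := by
  have h1 : ∀ i ∈ t, (∑ l ∈ s, m i l * |x l|) ^ 2 ≤
      α * ∑ l ∈ s, (m i l * p i) * (|x l| ^ 2 / p l) := by
    intro i _
    have hcs := Finset.sum_mul_sq_le_sq_mul_sq s (fun l => Real.sqrt (m i l * p l))
      (fun l => Real.sqrt (m i l / p l) * |x l|)
    have e1 : ∀ l, Real.sqrt (m i l * p l) * (Real.sqrt (m i l / p l) * |x l|)
        = m i l * |x l| := by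
      intro l
      rw [← mul_assoc, ← Real.sqrt_mul (mul_nonneg (hm i l) (hp l).le)]
      have : m i l * p l * (m i l / p l) = m i l * m i l := by
        field_simp [(hp l).ne']
      rw [this, Real.sqrt_mul_self (hm i l)]
    have e2 : ∀ l, Real.sqrt (m i l * p l) ^ 2 = m i l * p l := fun l =>
      Real.sq_sqrt (mul_nonneg (hm i l) (hp l).le)
    have e3 : ∀ l, (Real.sqrt (m i l / p l) * |x l|) ^ 2 = m i l / p l * |x l| ^ 2 := by
      intro l
      rw [mul_pow, Real.sq_sqrt (div_nonneg (hm i l) (hp l).le)]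
    simp only [e1, e2, e3] at hcs
    refine hcs.trans ?_
    have hnn : 0 ≤ ∑ l ∈ s, m i l / p l * |x l| ^ 2 :=
      Finset.sum_nonneg fun l _ => mul_nonneg (div_nonneg (hm i l) (hp l).le) (sq_nonneg _)
    calc (∑ l ∈ s, m i l * p l) * ∑ l ∈ s, m i l / p l * |x l| ^ 2
        ≤ (α * p i) * ∑ l ∈ s, m i l / p l * |x l| ^ 2 :=
          mul_le_mul_of_nonneg_right (hrow i s) hnn
      _ = α * ∑ l ∈ s, (m i l * p i) * (|x l| ^ 2 / p l) := by
          rw [mul_assoc, Finset.mul_sum]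
          congr 1
          refine Finset.sum_congr rfl fun l _ => ?_
          ring
  refine (Finset.sum_le_sum h1).trans ?_
  rw [← Finset.mul_sum, Finset.sum_comm, mul_assoc]
  refine mul_le_mul_of_nonneg_left ?_ hα
  rw [Finset.mul_sum]
  refine Finset.sum_le_sum fun l _ => ?_
  rw [← Finset.sum_mul]
  calc (∑ i ∈ t, m i l * p i) * (|x l| ^ 2 / p l) ≤ (β * p l) * (|x l| ^ 2 / p l) :=
        mul_le_mul_of_nonneg_right (hcol l t) (div_nonneg (sq_nonneg _) (hp l).le)
    _ = β * |x l| ^ 2 := by field_simp [(hp l).ne']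

/-- **Schur test.** -/
theorem schur (m : ℕ → ℕ → ℝ) (hm : ∀ i l, 0 ≤ m i l) (p : ℕ → ℝ) (hp : ∀ i, 0 < p i)
    (α β : ℝ) (hα : 0 ≤ α) (hβ : 0 ≤ β)
    (hrow : ∀ i (s : Finset ℕ), ∑ l ∈ s, m i l * p l ≤ α * p i)
    (hcol : ∀ l (s : Finset ℕ), ∑ i ∈ s, m i l * p i ≤ β * p l) :
    ∃ A : L2N →L[ℂ] L2N, (∀ (x : L2N) i, HasSum (fun l => (m i l : ℂ) * x l) (A x i)) ∧
      ‖A‖ ≤ Real.sqrt (α * β) := by
  have hαβ : 0 ≤ α * β := mul_nonneg hα hβ
  -- bounded partial sums
  have hb : ∀ (x : L2N) (t s : Finset ℕ),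
      ∑ i ∈ t, (∑ l ∈ s, m i l * ‖x l‖) ^ 2 ≤ α * β * ‖x‖ ^ 2 := by
    intro x t s
    have h := schur_key m hm p hp α β hα hrow hcol (fun l => ‖x l‖) t s
    simp only [abs_norm] at h
    exact h.trans (mul_le_mul_of_nonneg_left (l2_sum_le x s) hαβ)
  have hsum : ∀ (x : L2N) i, Summable (fun l => m i l * ‖x l‖) := by
    intro x i
    refine summable_of_sum_le (c := Real.sqrt (α * β * ‖x‖ ^ 2))
      (fun l => mul_nonneg (hm i l) (norm_nonneg _)) fun s => ?_
    have h := hb x {i} s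
    simp only [Finset.sum_singleton] at h
    exact Real.le_sqrt_of_sq_le h
  have hsumC : ∀ (x : L2N) i, Summable (fun l => (m i l : ℂ) * x l) := by
    intro x i
    refine Summable.of_norm ?_
    refine (hsum x i).congr fun l => ?_
    rw [norm_mul, Complex.norm_real, Real.norm_of_nonneg (hm i l)]
  let f : L2N → ℕ → ℂ := fun x i => ∑' l, (m i l : ℂ) * x l
  have hf2 : ∀ (x : L2N) (t : Finset ℕ), ∑ i ∈ t, ‖f x i‖ ^ 2 ≤ α * β * ‖x‖ ^ 2 := by
    intro x t
    have h1 : ∀ i, ‖f x i‖ ≤ ∑' l, m i l * ‖x l‖ := by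
      intro i
      have h2 : Summable fun l => ‖(m i l : ℂ) * x l‖ := by
        refine (hsum x i).congr fun l => ?_
        rw [norm_mul, Complex.norm_real, Real.norm_of_nonneg (hm i l)]
      refine (norm_tsum_le_tsum_norm h2).trans (le_of_eq ?_)
      refine tsum_congr fun l => ?_
      rw [norm_mul, Complex.norm_real, Real.norm_of_nonneg (hm i l)]
    have h3 : Tendsto (fun s : Finset ℕ => ∑ i ∈ t, (∑ l ∈ s, m i l * ‖x l‖) ^ 2) atTop
        (𝓝 (∑ i ∈ t, (∑' l, m i l * ‖x l‖) ^ 2)) :=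
      tendsto_finsetSum _ fun i _ => ((hsum x i).hasSum).pow 2
    have h4 : ∑ i ∈ t, (∑' l, m i l * ‖x l‖) ^ 2 ≤ α * β * ‖x‖ ^ 2 :=
      le_of_tendsto h3 (Eventually.of_forall fun s => hb x t s)
    refine le_trans (Finset.sum_le_sum fun i _ => ?_) h4
    exact pow_le_pow_left₀ (norm_nonneg _) (h1 i) 2
  have hmem : ∀ x : L2N, Memℓp (f x) 2 := by
    intro x
    refine memℓp_gen' (C := α * β * ‖x‖ ^ 2) fun s => ?_
    simpa using hf2 x s
  let L : L2N →ₗ[ℂ] L2N :=
    { toFun := fun x => ⟨f x, hmem x⟩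
      map_add' := by
        intro x y
        apply lp.ext
        funext i
        show (∑' l, (m i l : ℂ) * (x + y : L2N) l) = _
        rw [lp.coeFn_add, lp.coeFn_add]
        show _ = (∑' l, (m i l : ℂ) * x l) + (∑' l, (m i l : ℂ) * y l)
        rw [← (hsumC x i).tsum_add (hsumC y i)]
        refine tsum_congr fun l => ?_
        simp only [Pi.add_apply]
        ring
      map_smul' := by
        intro c x
        apply lp.ext
        funext i
        show (∑' l, (m i l : ℂ) * (c • x : L2N) l) = _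
        rw [lp.coeFn_smul, lp.coeFn_smul]
        show _ = c • (∑' l, (m i l : ℂ) * x l)
        rw [smul_eq_mul, ← tsum_mul_left]
        refine tsum_congr fun l => ?_
        simp only [Pi.smul_apply, smul_eq_mul]
        ring }
  refine ⟨L.mkContinuous (Real.sqrt (α * β)) ?_, ?_, ?_⟩
  · intro x
    have h0 : 0 ≤ Real.sqrt (α * β) * ‖x‖ := mul_nonneg (Real.sqrt_nonneg _) (norm_nonneg _)
    refine lp.norm_le_of_forall_sum_le (p := 2) (by norm_num) h0 fun s => ?_
    have h := hf2 x s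
    have h5 : (Real.sqrt (α * β) * ‖x‖) ^ 2 = α * β * ‖x‖ ^ 2 := by
      rw [mul_pow, Real.sq_sqrt hαβ]
    have h6 : ∑ i ∈ s, ‖(L x) i‖ ^ 2 ≤ (Real.sqrt (α * β) * ‖x‖) ^ 2 := by
      rw [h5]; exact h
    simpa using h6
  · intro x i
    exact (hsumC x i).hasSum
  · exact LinearMap.mkContinuous_norm_le _ (Real.sqrt_nonneg _) _

/-- Two operators with the same matrix are equal. -/
theorem isMat_unique {A B : L2N →L[ℂ] L2N} {m : ℕ → ℕ → ℝ} (hA : IsMat A m) (hB : IsMat B m) :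
    A = B := by
  apply ContinuousLinearMap.ext
  intro x
  have hx := lp.hasSum_single (p := 2) (by norm_num) x
  have h1 := A.hasSum hx
  have h2 := B.hasSum hx
  refine h1.unique ?_
  convert h2 using 1
  funext l
  have h3 : lp.single 2 l (x l) = x l • e l := by
    rw [e, ← lp.single_smul, smul_eq_mul, mul_one]
  show A (lp.single 2 l (x l)) = B (lp.single 2 l (x l))
  rw [h3, map_smul, map_smul]
  congr 1
  apply lp.ext
  funext i
  rw [hA i l, hB i l]

/-- An operator given by a convergent matrix has this matrix. -/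
theorem isMat_of_hasSum {A : L2N →L[ℂ] L2N} {m : ℕ → ℕ → ℝ}
    (h : ∀ (x : L2N) i, HasSum (fun l => (m i l : ℂ) * x l) (A x i)) : IsMat A m := by
  intro i l
  refine (h (e l) i).unique ?_
  convert hasSum_ite_eq l (m i l : ℂ) using 1
  funext k
  rw [e_apply]
  split_ifs with hk
  · rw [hk, mul_one]
  · rw [mul_zero]

/-- Conversely, an operator with matrix `m` is given by the convergent sums. -/
theorem hasSum_of_isMat {A : L2N →L[ℂ] L2N} {m : ℕ → ℕ → ℝ} (h : IsMat A m)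
    (x : L2N) (i : ℕ) : HasSum (fun l => (m i l : ℂ) * x l) (A x i) := by
  have hx := lp.hasSum_single (p := 2) (by norm_num) x
  have h1 := A.hasSum hx
  have h2 := (lp.evalCLM ℂ (fun _ : ℕ => ℂ) 2 i).hasSum h1
  have h4 : (fun l => (m i l : ℂ) * x l) = fun l => (A (lp.single 2 l (x l))) i := by
    funext l
    have h3 : lp.single 2 l (x l) = x l • e l := by
      rw [e, ← lp.single_smul, smul_eq_mul, mul_one]
    rw [h3, map_smul, lp.coeFn_smul, Pi.smul_apply, smul_eq_mul, h i l, mul_comm]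
  rw [h4]
  exact h2

end Aluthge
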